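import Mathlib
import Pool.Agent.LGO.F.CuLoc
import Pool.Agent.LGO.F.CuBig

/-!
# LGO/CP: the infinite places

PROOF.  `F.cu_loc`: constants `C₀ ≥ 1`, `m > 0`: if `C₀ ≤ ‖s Φ‖` then `‖s Φ‖ ≤ C₀ ‖s x_i‖ ^ m` and `≤ C₀ ‖s x_j‖ ^ m` (the points `y = x ∘ ![i, j, a]`, `x ∈ V`, satisfy the hypothesis
by `hψ`).  `F.big_pair`: `C₁`, `E`.  Let `Λ = log ‖s Φ‖`.  If `Λ ≤ log C₀ + m C₁` the claim holds for large `C`, because `√(mdeg) ≥ 1` (`mdeg_pos`).  Otherwise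
`log ‖s x_i‖, log ‖s x_j‖ ≥ (Λ - log C₀) / m ≥ C₁`, so `((Λ - log C₀) / m) ^ 2 ≤ C₁ mdeg`, `Λ ≤ log C₀ + m √(C₁ mdeg) ≤ C √mdeg`.
-/

namespace Pool.Agent.LGO.CP

open MvPolynomial UpperHalfPlane Pool.Agent.Hhelper14.ZP Pool.Agent.Hhelper14.ZPL
  Pool.Agent.LGO

private theorem ArchY_log {C₀ f u : ℝ} {m : ℕ} (hC₀ : 1 ≤ C₀) (hf : C₀ ≤ f) (hu : 0 ≤ u) (hm : 0 < m)
    (h : f ≤ C₀ * u ^ m) : 0 < u ∧ (Real.log f - Real.log C₀) / m ≤ Real.log u := by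
  have hC0 : 0 < C₀ := by linarith
  have hf0 : 0 < f := by linarith
  have hmR : (0 : ℝ) < m := by exact_mod_cast hm
  have hu0 : 0 < u := by
    rcases hu.eq_or_lt with h0 | h0
    · rw [← h0, zero_pow hm.ne', mul_zero] at h
      linarith
    · exact h0
  refine ⟨hu0, ?_⟩
  have h1 := Real.log_le_log hf0 h
  rw [Real.log_mul hC0.ne' (pow_pos hu0 m).ne', Real.log_pow] at h1
  rw [div_le_iff₀ hmR]
  linarith

theorem arch_y {n : ℕ} {V : Set (Fin n → ℂ)} (hV : Pool.Agent.Hhelper14.ZPL.IsIrredClosed V)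
    (hVk : KClosed V) (hdim : Pool.Agent.Hhelper14.ZPL.dim V = 1) {i j : Fin n} (hij : i ≠ j)
    (hi : ∀ c : ℂ, ∃ x ∈ V, x i ≠ c) (hj : ∀ c : ℂ, ∃ x ∈ V, x j ≠ c)
    (hmod : ∀ g : GL (Fin 2) ℚ, 0 < g.det.val →
      ∃ x ∈ V, ¬ ∃ τ : ℍ, x i = jInv τ ∧ x j = jInv (gact g τ)) (a : Fin n)
    {L : Type} [Field L] [Algebra Qb L] (hdep : Dep Qb L) (ψ : Fin 3 → L)
    (hψ : ∀ G : MvPolynomial (Fin 3) Qb, aeval ψ G = 0 →
      ∀ x ∈ V, (aeval (x ∘ ![i, j, a]) G : ℂ) = 0)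
    {O : ValuationSubring L} (hO : Over Qb O) (h0 : ψ 0 ∉ O) (h1 : ψ 1 ∉ O)
    {Φ : MvPolynomial (Fin 3) Qb} (hF : aeval ψ Φ ∉ O)
    (huniq : ∀ O' : ValuationSubring L, Over Qb O' → aeval ψ Φ ∉ O' → O' = O) :
    ∃ (C : ℝ) (E : Set (Fin n → ℂ)), 1 ≤ C ∧ E.Finite ∧ ∀ x ∈ V, x ∉ E →
      (∃ N, 0 < N ∧ IsogDeg N (x i) (x j)) → ∀ s : ℂ ≃+* ℂ,
        ‖s (aeval (x ∘ ![i, j, a]) Φ : ℂ)‖ ≤
          Real.exp (C * Real.sqrt (mdeg (x i) (x j))) := by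
  obtain ⟨k, l, α, C₀, m, -, -, -, hC₀, hm, hloc⟩ := F.cu_loc hdep ψ hO h0 h1 hF huniq
  obtain ⟨C₁, E, hC₁, hE, hbig⟩ := F.big_pair hV hVk hdim hij hi hj hmod
  have hC₁R : (1 : ℝ) ≤ C₁ := by exact_mod_cast hC₁
  have hmR : (1 : ℝ) ≤ m := by exact_mod_cast hm
  have hlog0 : 0 ≤ Real.log C₀ := Real.log_nonneg hC₀
  have hmC : (1 : ℝ) ≤ m * C₁ := by nlinarith
  refine ⟨Real.log C₀ + m * C₁, E, by linarith, hE, fun x hx hxE hiso s => ?_⟩
  set N : ℕ := mdeg (x i) (x j) with hN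
  have hN1 : (1 : ℝ) ≤ N := by
    have : 1 ≤ N := mdeg_pos hiso
    exact_mod_cast this
  set S : ℝ := Real.sqrt N with hS
  have hS1 : 1 ≤ S := Real.one_le_sqrt.2 hN1
  have hSS : S * S = N := Real.mul_self_sqrt (by linarith)
  set f : ℝ := ‖s (aeval (x ∘ ![i, j, a]) Φ : ℂ)‖ with hf
  have hbase : Real.log C₀ + m * C₁ ≤ (Real.log C₀ + m * C₁) * S := by
    have : 0 ≤ Real.log C₀ + m * C₁ := by linarith
    nlinarith
  by_cases hfC : C₀ ≤ f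
  · have hf0 : 0 < f := by linarith
    obtain ⟨hA, hB, -⟩ := hloc s (x ∘ ![i, j, a]) (fun G hG => hψ G hG x hx) hfC
    have hA' : f ≤ C₀ * ‖s (x i)‖ ^ m := hA
    have hB' : f ≤ C₀ * ‖s (x j)‖ ^ m := hB
    obtain ⟨-, hA2⟩ := ArchY_log hC₀ hfC (norm_nonneg _) hm hA'
    obtain ⟨-, hB2⟩ := ArchY_log hC₀ hfC (norm_nonneg _) hm hB'
    set t : ℝ := (Real.log f - Real.log C₀) / m with ht
    have hft : Real.log f = Real.log C₀ + m * t := by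
      rw [ht]
      field_simp
      ring
    rw [← Real.log_le_iff_le_exp hf0, hft]
    by_cases htC : t ≤ C₁
    · have : m * t ≤ m * C₁ := mul_le_mul_of_nonneg_left htC (by linarith)
      linarith
    · rw [not_le] at htC
      have h2 := hbig x hx hxE hiso s (htC.le.trans hA2) (htC.le.trans hB2)
      have ht0 : 0 < t := by linarith
      have h3 : t * t ≤ Real.log ‖s (x i)‖ * Real.log ‖s (x j)‖ :=
        mul_le_mul hA2 hB2 ht0.le (ht0.le.trans hA2)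
      have h4 : t * t ≤ (C₁ * S) * (C₁ * S) := by
        calc t * t ≤ C₁ * N := h3.trans h2
          _ = C₁ * (S * S) := by rw [hSS]
          _ ≤ C₁ * C₁ * (S * S) := by
            have : (0 : ℝ) ≤ S * S := by positivity
            nlinarith
          _ = (C₁ * S) * (C₁ * S) := by ring
      have h5 : t ≤ C₁ * S := by
        by_contra hcon
        rw [not_le] at hcon
        have : 0 ≤ C₁ * S := by positivity
        nlinarith
      have h6 : m * t ≤ m * (C₁ * S) := mul_le_mul_of_nonneg_left h5 (by linarith)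
      have h7 : Real.log C₀ ≤ Real.log C₀ * S := by nlinarith
      calc Real.log C₀ + m * t ≤ Real.log C₀ * S + m * (C₁ * S) := by linarith
        _ = (Real.log C₀ + m * C₁) * S := by ring
  · rw [not_le] at hfC
    have h2 : C₀ = Real.exp (Real.log C₀) := (Real.exp_log (by linarith)).symm
    have h3 : Real.exp (Real.log C₀) ≤ Real.exp ((Real.log C₀ + m * C₁) * S) := by
      apply Real.exp_le_exp.2
      linarith
    linarith

end Pool.Agent.LGO.CP
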