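import Mathlib
import Pool.Agent.LGO.G.RelF
import Pool.Agent.LGO.H.BdC
import Pool.Agent.LGO.CM.Inv
import Pool.Agent.LGO.PA.QInt

/-!
# LGO/CP: the coordinates in terms of a nonconstant function

PROOF.  `val_mem`: `K₀` is generated by the coefficients of `F` (algebraic numbers, finitely many: `F.support`).
`coord_bd`: `exists_rel` (`G/RelF.lean`): `R`, `d = natDegree R > 0`, `Σ_{j ≤ d} R_j(t) x_a ^ j = 0` with `t = F(x)`, and `E` = the finite set where `R_d(t) = 0`.  `K₀` is generated by the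
coefficients of the `R_j` (finitely many; for `j > d` the coefficients are `0`).  `c_j = R_j(t)`: `bd_val` (`CM/Inv.lean`): `Bd K (C_1 (1 + B)) c_j`.
`b_j = c_j c_d ^ (d - 1 - j)` (`j < d`), `y = c_d x_a`: `y ^ d + Σ_{j < d} b_j y ^ j = 0` (multiply the relation by `c_d ^ (d - 1)`), `Bd K (C_2 (1 + B)) b_j`.
If `ν_j` is a denominator of `b_j` and `ν = ∏ ν_j` then `(ν y) ^ d + Σ_j ν ^ (d - j) b_j (ν y) ^ j = 0`, so `ν y` is integral (root of a monic polynomial with integral
coefficients, see `WtUse_root` in `T/WtUse.lean` or `IsIntegral` transitivity).  For every embedding `‖σ y‖ ≤ 1 + Σ_j ‖σ b_j‖`.  So `Bd K (C_3 (1 + B)) y`, and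
`PA.bd_div`: `Bd K (3 D C_3 (1 + B)) (y / c_d)`, `y / c_d = x_a`.
-/

namespace Pool.Agent.LGO.CP

open MvPolynomial Pool.Agent.Hhelper14.ZPL Pool.Agent.LGO Pool.Agent.LGO.PA

private theorem Coord_fin (c : Qb) : ∃ K₀ : IntermediateField ℚ ℂ, FiniteDimensional ℚ K₀ ∧
    (c : ℂ) ∈ K₀ := by
  have h1 : IsAlgebraic ℚ (c : ℂ) := mem_algebraicClosure_iff.1 c.2
  exact ⟨IntermediateField.adjoin ℚ {(c : ℂ)},
    IntermediateField.adjoin.finiteDimensional h1.isIntegral,
    IntermediateField.mem_adjoin_simple_self ℚ (c : ℂ)⟩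

theorem val_mem (F : MvPolynomial (Fin 3) Qb) : ∃ K₀ : IntermediateField ℚ ℂ,
    FiniteDimensional ℚ K₀ ∧ ∀ (K : IntermediateField ℚ ℂ) (y : Fin 3 → ℂ), K₀ ≤ K →
      (∀ b, y b ∈ K) → (aeval y F : ℂ) ∈ K := by
  induction F using MvPolynomial.induction_on with
  | C c =>
    obtain ⟨K₀, hf, hc⟩ := Coord_fin c
    refine ⟨K₀, hf, fun K' y hK' _ => ?_⟩
    rw [aeval_C]
    exact hK' hc
  | add p q hp hq =>
    obtain ⟨K₁, hf₁, h₁⟩ := hp
    obtain ⟨K₂, hf₂, h₂⟩ := hq
    have := hf₁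
    have := hf₂
    refine ⟨K₁ ⊔ K₂, inferInstance, fun K' y hK' hy => ?_⟩
    rw [map_add]
    exact K'.add_mem (h₁ K' y (le_sup_left.trans hK') hy) (h₂ K' y (le_sup_right.trans hK') hy)
  | mul_X p b hp =>
    obtain ⟨K₁, hf₁, h₁⟩ := hp
    refine ⟨K₁, hf₁, fun K' y hK' hy => ?_⟩
    rw [map_mul, aeval_X]
    exact K'.mul_mem (h₁ K' y hK' hy) (hy b)

/-- a root of a monic polynomial with integral coefficients -/
private theorem Coord_root {r : ℕ} (a : ℂ) (d : ℕ → ℂ) (hd : ∀ j < r, IsIntegral ℤ (d j))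
    (h : a ^ r + ∑ j ∈ Finset.range r, d j * a ^ j = 0) : IsIntegral ℤ a := by
  classical
  set A := integralClosure ℤ ℂ with hA
  set e : Fin r → A := fun j => ⟨d j, hd j j.2⟩ with he
  set p : Polynomial A := Polynomial.X ^ r + ∑ j : Fin r, Polynomial.C (e j) * Polynomial.X ^ (j : ℕ) with hp
  have hpm : p.Monic := Polynomial.monic_X_pow_add (Polynomial.degree_sum_fin_lt e)
  have hpa : Polynomial.aeval a p = 0 := by
    rw [hp, map_add, map_pow, Polynomial.aeval_X, map_sum, ← h, Finset.sum_range]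
    congr 1
    refine Finset.sum_congr rfl fun j _ => ?_
    rw [map_mul, map_pow, Polynomial.aeval_X, Polynomial.aeval_C]
    rfl
  exact isIntegral_trans (R := ℤ) (A := A) a ⟨p, hpm, hpa⟩

/-- the size of a root of a monic polynomial -/
private theorem Coord_size {r : ℕ} (hr : 0 < r) (z : ℂ) (b : ℕ → ℂ) {M : ℝ} (hM : 1 ≤ M)
    (hb : ∀ j < r, ‖b j‖ ≤ M) (h : z ^ r + ∑ j ∈ Finset.range r, b j * z ^ j = 0) :
    ‖z‖ ≤ r * M := by
  have hr1 : (1 : ℝ) ≤ r := by exact_mod_cast hr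
  rcases le_or_gt ‖z‖ 1 with hz | hz
  · nlinarith
  · have h1 : z ^ r = -∑ j ∈ Finset.range r, b j * z ^ j := by linear_combination h
    have h2 : ‖z‖ ^ r ≤ r * (M * ‖z‖ ^ (r - 1)) := by
      rw [← norm_pow, h1, norm_neg]
      refine (norm_sum_le _ _).trans ?_
      have h3 : ∀ j ∈ Finset.range r, ‖b j * z ^ j‖ ≤ M * ‖z‖ ^ (r - 1) := by
        intro j hj
        rw [Finset.mem_range] at hj
        rw [norm_mul, norm_pow]
        exact mul_le_mul (hb j hj) (pow_le_pow_right₀ hz.le (by omega)) (by positivity) (by linarith)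
      refine (Finset.sum_le_sum h3).trans ?_
      rw [Finset.sum_const, Finset.card_range, nsmul_eq_mul]
    have h4 : ‖z‖ ^ r = ‖z‖ * ‖z‖ ^ (r - 1) := by
      rw [← pow_succ']
      congr 1
      omega
    have h5 : 0 < ‖z‖ ^ (r - 1) := pow_pos (by linarith) _
    rw [h4] at h2
    by_contra hc
    push Not at hc
    have h6 : r * M * ‖z‖ ^ (r - 1) < ‖z‖ * ‖z‖ ^ (r - 1) := mul_lt_mul_of_pos_right hc h5
    nlinarith

/-- heights of roots of monic polynomials -/
private theorem Coord_bd {K : IntermediateField ℚ ℂ} {r : ℕ} (hr : 0 < r) {y : ℂ} (hy : y ∈ K)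
    (b : ℕ → ℂ) {G : ℝ} (hb : ∀ j < r, Bd K G (b j))
    (h : y ^ r + ∑ j ∈ Finset.range r, b j * y ^ j = 0) : Bd K (r * G + r) y := by
  classical
  have hG : 0 ≤ G := (hb 0 hr).nonneg
  have hr1 : (1 : ℝ) ≤ r := by exact_mod_cast hr
  refine ⟨hy, ?_, fun σ => ?_⟩
  · have hden : ∀ j, ∃ m : ℕ, 0 < m ∧ (j < r → (m : ℝ) ≤ Real.exp G ∧ IsIntegral ℤ ((m : ℂ) * b j)) := by
      intro j
      by_cases hj : j < r
      · obtain ⟨m, hm, h1, h2⟩ := (hb j hj).den
        exact ⟨m, hm, fun _ => ⟨h1, h2⟩⟩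
      · exact ⟨1, one_pos, fun h => absurd h hj⟩
    choose m hm hmj using hden
    refine ⟨∏ j ∈ Finset.range r, m j, Finset.prod_pos fun j _ => hm j, ?_, ?_⟩
    · rw [Nat.cast_prod]
      calc (∏ j ∈ Finset.range r, (m j : ℝ)) ≤ ∏ _j ∈ Finset.range r, Real.exp G :=
            Finset.prod_le_prod (fun j _ => Nat.cast_nonneg _) fun j hj =>
              (hmj j (Finset.mem_range.1 hj)).1
        _ = Real.exp (r * G) := by
            rw [Finset.prod_const, Finset.card_range, ← Real.exp_nat_mul]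
        _ ≤ Real.exp (r * G + r) := Real.exp_le_exp.2 (by linarith)
    · set ν : ℂ := ((∏ j ∈ Finset.range r, m j : ℕ) : ℂ) with hν
      refine Coord_root (r := r) (ν * y) (fun j => ν ^ (r - j) * b j) ?_ ?_
      · intro j hj
        have e1 : ν ^ (r - j) * b j = ν ^ (r - j - 1) * (ν * b j) := by
          have e2 : r - j = (r - j - 1) + 1 := by omega
          conv_lhs => rw [e2]
          rw [pow_succ, mul_assoc]
        have e3 : ν * b j = ((∏ k ∈ (Finset.range r).erase j, m k : ℕ) : ℂ) * ((m j : ℂ) * b j) := by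
          rw [hν, ← Finset.mul_prod_erase _ _ (Finset.mem_range.2 hj), Nat.cast_mul]
          ring
        have e4 : IsIntegral ℤ ν := by
          have := isIntegral_natCast_mul (∏ j ∈ Finset.range r, m j) (isIntegral_one (R := ℤ) (B := ℂ))
          rwa [mul_one] at this
        rw [e1, e3]
        exact (e4.pow _).mul (isIntegral_natCast_mul _ (hmj j hj).2)
      · have e5 : (ν * y) ^ r + ∑ j ∈ Finset.range r, ν ^ (r - j) * b j * (ν * y) ^ j =
            ν ^ r * (y ^ r + ∑ j ∈ Finset.range r, b j * y ^ j) := by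
          rw [mul_add, mul_pow, Finset.mul_sum]
          congr 1
          refine Finset.sum_congr rfl fun j hj => ?_
          rw [Finset.mem_range] at hj
          have e6 : ν ^ r = ν ^ (r - j) * ν ^ j := by
            rw [← pow_add]
            congr 1
            omega
          rw [e6, mul_pow]
          ring
        rw [e5, h, mul_zero]
  · set yK : K := ⟨y, hy⟩ with hyK
    set bK : ℕ → K := fun j => if hj : j < r then ⟨b j, (hb j hj).mem⟩ else 0 with hbK
    have hcoe : ∀ j < r, ((bK j : K) : ℂ) = b j := by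
      intro j hj
      simp only [hbK, dif_pos hj]
    have hrel : yK ^ r + ∑ j ∈ Finset.range r, bK j * yK ^ j = 0 := by
      apply (algebraMap K ℂ).injective
      rw [map_zero, map_add, map_pow, map_sum, ← h]
      congr 1
      refine Finset.sum_congr rfl fun j hj => ?_
      rw [map_mul, map_pow]
      congr 1
      exact hcoe j (Finset.mem_range.1 hj)
    have hrel' : (σ yK) ^ r + ∑ j ∈ Finset.range r, σ (bK j) * (σ yK) ^ j = 0 := by
      have := congrArg σ hrel
      rw [map_zero, map_add, map_pow, map_sum] at this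
      rw [← this]
      congr 1
      refine Finset.sum_congr rfl fun j _ => ?_
      rw [map_mul, map_pow]
    have h1 : ‖σ yK‖ ≤ r * Real.exp G := by
      refine Coord_size hr (σ yK) (fun j => σ (bK j)) (Real.one_le_exp hG) ?_ hrel'
      intro j hj
      have h2 : bK j = ⟨b j, (hb j hj).mem⟩ := by simp only [hbK, dif_pos hj]
      show ‖σ (bK j)‖ ≤ _
      rw [h2]
      exact (hb j hj).house σ
    refine h1.trans ?_
    have h3 : (r : ℝ) ≤ Real.exp r := by
      have := Real.add_one_le_exp (r : ℝ)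
      linarith
    calc (r : ℝ) * Real.exp G ≤ Real.exp r * Real.exp G :=
          mul_le_mul_of_nonneg_right h3 (Real.exp_pos _).le
      _ = Real.exp (r + G) := by rw [← Real.exp_add]
      _ ≤ Real.exp (r * G + r) := by
          apply Real.exp_le_exp.2
          nlinarith

theorem coord_bd {n : ℕ} {V : Set (Fin n → ℂ)} (hV : Pool.Agent.Hhelper14.ZPL.IsIrredClosed V)
    (hVk : KClosed V) (hdim : Pool.Agent.Hhelper14.ZPL.dim V = 1) (i : Fin 3 → Fin n)
    {F : MvPolynomial (Fin 3) Qb} (hF : ∀ c : ℂ, ∃ x ∈ V, (aeval (x ∘ i) F : ℂ) ≠ c)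
    (a : Fin 3) :
    ∃ (K₀ : IntermediateField ℚ ℂ) (C : ℝ) (E : Set (Fin n → ℂ)), FiniteDimensional ℚ K₀ ∧
      1 ≤ C ∧ E.Finite ∧ ∀ x ∈ V, x ∉ E → ∀ (K : IntermediateField ℚ ℂ)
        [FiniteDimensional ℚ K] (B : ℝ), K₀ ≤ K → 0 ≤ B → x (i a) ∈ K →
        Bd K B (aeval (x ∘ i) F : ℂ) →
        Bd K (C * Module.finrank ℚ K * (1 + B)) (x (i a)) := by
  classical
  obtain ⟨R, hd, hrel, hE⟩ := exists_rel hV hVk hdim i hF a
  set d : ℕ := R.natDegree with hdd
  obtain ⟨K₀, hK₀, hfix⟩ := U.fld_fix ((Finset.range (d + 1)).image R.coeff)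
  choose c hc1 hcB using bd_val
  set C₁ : ℝ := ∑ j ∈ Finset.range (d + 1), c (R.coeff j) with hC₁
  have hcle : ∀ j ≤ d, c (R.coeff j) ≤ C₁ := by
    intro j hj
    exact Finset.single_le_sum (f := fun j => c (R.coeff j))
      (fun j _ => zero_le_one.trans (hc1 (R.coeff j))) (Finset.mem_range.2 (Nat.lt_succ_of_le hj))
  have hC₁1 : 1 ≤ C₁ := (hc1 (R.coeff 0)).trans (hcle 0 (Nat.zero_le _))
  have hd1 : (1 : ℝ) ≤ d := by exact_mod_cast hd
  refine ⟨K₀, 3 * (d * d + d + 1) * C₁, _, hK₀, ?_, hE, ?_⟩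
  · nlinarith
  intro x hx hxE K _ B hK₀K hB hxa ht
  set t : ℂ := (aeval (x ∘ i) F : ℂ) with htdef
  have hB1 : 0 < 1 + B := by linarith
  have bj : ∀ j ≤ d, Bd K (C₁ * (1 + B)) (Polynomial.aeval t (R.coeff j) : ℂ) := by
    intro j hj
    refine (hcB (R.coeff j) K B t hB (fun l => hK₀K (hfix _ ?_ l)) ht).mono ?_
    · exact Finset.mem_image_of_mem _ (Finset.mem_range.2 (Nat.lt_succ_of_le hj))
    · exact mul_le_mul_of_nonneg_right (hcle j hj) hB1.le
  set cd : ℂ := (Polynomial.aeval t (R.coeff d) : ℂ) with hcd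
  have hcd0 : cd ≠ 0 := fun h => hxE ⟨hx, h⟩
  set G : ℝ := C₁ * (1 + B) with hG
  have hG0 : 0 ≤ G := by positivity
  have hG1 : 1 ≤ G := by
    rw [hG]
    nlinarith
  have hyK : cd * x (i a) ∈ K := K.mul_mem (bj d le_rfl).mem hxa
  have h1 : Bd K (d * (d * G) + d) (cd * x (i a)) := by
    refine Coord_bd hd hyK (fun j => (Polynomial.aeval t (R.coeff j) : ℂ) * cd ^ (d - 1 - j)) ?_ ?_
    · intro j hj
      refine ((bj j hj.le).mul ((bj d le_rfl).pow (d - 1 - j))).mono ?_
      have e1 : (((d - 1 - j : ℕ) : ℝ)) + 1 ≤ d := by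
        have : (d - 1 - j) + 1 ≤ d := by omega
        exact_mod_cast this
      nlinarith
    · have e2 := hrel x hx
      rw [Finset.sum_range_succ] at e2
      have e3 : (cd * x (i a)) ^ d + ∑ j ∈ Finset.range d,
          (Polynomial.aeval t (R.coeff j) : ℂ) * cd ^ (d - 1 - j) * (cd * x (i a)) ^ j =
          cd ^ (d - 1) * (∑ j ∈ Finset.range d, (Polynomial.aeval t (R.coeff j) : ℂ) * x (i a) ^ j +
            (Polynomial.aeval t (R.coeff d) : ℂ) * x (i a) ^ d) := by
        rw [mul_add, Finset.mul_sum, add_comm]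
        congr 1
        · refine Finset.sum_congr rfl fun j hj => ?_
          rw [Finset.mem_range] at hj
          have e4 : cd ^ (d - 1) = cd ^ (d - 1 - j) * cd ^ j := by
            rw [← pow_add]
            congr 1
            omega
          rw [e4, mul_pow]
          ring
        · have e5 : cd ^ d = cd ^ (d - 1) * cd := by
            rw [← pow_succ]
            congr 1
            omega
          rw [mul_pow, e5]
          ring
      show (cd * x (i a)) ^ d + ∑ j ∈ Finset.range d,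
          (Polynomial.aeval t (R.coeff j) : ℂ) * cd ^ (d - 1 - j) * (cd * x (i a)) ^ j = 0
      rw [e3, e2, mul_zero]
  have h2 : Bd K ((d * d + d + 1) * G) (cd * x (i a)) := h1.mono (by nlinarith)
  have h3 : Bd K ((d * d + d + 1) * G) cd := (bj d le_rfl).mono (by nlinarith)
  have h4 := bd_div (K := K) (D := Module.finrank ℚ K) le_rfl h3 h2 hcd0
  rw [mul_div_cancel_left₀ _ hcd0] at h4
  refine h4.mono (le_of_eq ?_)
  rw [hG]
  ring

end Pool.Agent.LGO.CP
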