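import Mathlib
import Pool.Agent.LGO.Defs

/-!
# LGO/CP: the lower bound for the degree at a common pole of two coordinates (note 3099 (2), any curve)

`V` is an irreducible curve over `ℚ̄`, `x_i`, `x_j` two coordinates which have a common pole `O` and satisfy no modular relation.
`f = F(x)` is the value of a function whose only pole is `O`.  THEOREM (`CP/Main.lean`): if `x_i`, `x_j` are isogenous, of
minimal degree `N`, then all coordinates of `x` have height at most `C D ^ C √N`, up to finitely many `x`.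

PROOF.  At `O` the function `x_i ^ k / x_j ^ l` has a finite value `α ≠ 0` (`k, l` coprime).
At an infinite place `log |F(x)| ≤ C √N` (`big_pair`, `F/CuBig.lean`).
At a finite place `φ : ℂ → ℂ_[p]` where `F(x)` is large, `φ u = jP q`, `φ v = jP q'` (`u = x_i`, `v = x_j`), `q' ^ d = q ^ a`, `a d = N`.
Compare with `‖q‖ ^ k = ‖α‖⁻¹ ‖q'‖ ^ l`: if `k d ≠ l a` then `‖α‖ ≠ 1` (a bad place) and `log ‖F(x)‖ ≤ C √N`.  If `k d = l a`
then `a = k g`, `d = l g`, `N = k l g ^ 2` with the same `g` for all places, `ω = q' ^ l / q ^ k` satisfies `ω ^ g = 1` and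
`‖ω - α‖ ^ μ ‖F(x)‖ ≤ C`, so `‖α ^ g - 1‖ ^ μ ‖F(x)‖ ≤ C`: if `α ^ g ≠ 1` then `(α ^ g - 1) ^ μ F(x)` is integral up to a
denominator `≤ exp (C √N)`, and its height is at most `C √N`, so `F(x)` has height at most `C D √N`.
If `α ^ g = 1` then `g ^ μ F(x)` has the same property, because `ω ^ g₀` (`g₀` the order of `α`) is a root of unity of an order dividing `g`, near `1`,
and it is not `1` if `N` is large.

`Nr φ k l μ M α u v f`: the inequalities at `O` for one embedding.
-/

namespace Pool.Agent.LGO.CP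

/-- the inequalities near a common pole, for one embedding -/
structure Nr {p : ℕ} [Fact p.Prime] (φ : ℂ →+* ℂ_[p]) (k l μ M : ℕ) (α u v f : ℂ) : Prop where
  hu : ‖(M : ℂ_[p])‖ * ‖φ f‖ ≤ ‖φ u‖ ^ μ
  hv : ‖(M : ℂ_[p])‖ * ‖φ f‖ ≤ ‖φ v‖ ^ μ
  hr : ‖(M : ℂ_[p])‖ * (‖φ u ^ k / φ v ^ l - φ α‖ ^ μ * ‖φ f‖) ≤ 1

end Pool.Agent.LGO.CP
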