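import Mathlib
import Pool.Agent.LGO.G.Defs
import Pool.Agent.Hhelper14.ZPL.KClosed
import Pool.Agent.LGO.PA.Cmp

/-!
# LGO/CP: inequalities from certificates, for all embeddings in `ℂ_[p]`

The non-archimedean form of `ineq_of_cert` (`LGO/G/Ineq.lean`; copy the first part of its proof: the polynomial `G` with `aeval ψ G = 0`).
PROOF.  For every nonzero coefficient `c` of `q` and of the `p i` (`i < r`; finitely many) `PA.alg_norm` (`PA/Cmp.lean`) gives `m_c > 0` with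
`‖m_c‖ ‖φ c‖ ≤ 1` and `‖m_c‖ ≤ ‖φ c‖` for all `φ`.  `M₀ = ∏ m_c`, `M = M₀ ^ 2`; `‖(m : ℂ_[p])‖ ≤ 1` for natural numbers, so `‖M₀‖ ≤ ‖m_c‖`.
Let `f = φ F(y)`, `n = φ N(y)`, `d = φ D(y)`, `W = f n ^ m`, `E = d ^ m`; `1 < ‖M‖ ‖f‖`, so `‖f‖ > ‖M₀‖⁻²`, `‖f‖ > 1`.
`‖q^φ(f)‖ ≥ ‖M₀‖ ‖f‖ ^ e`, `e = deg q`: the terms below the leading one have norm `≤ ‖M₀‖⁻¹ ‖f‖ ^ (e - 1) < ‖M₀‖ ‖f‖ ^ e ≤ ‖lead‖ ‖f‖ ^ e`
(ultrametric inequality).  `‖p_i^φ(f)‖ ≤ ‖M₀‖⁻¹ ‖f‖ ^ e`.  From `q^φ(f) W ^ r = - Σ_{i < r} p_i^φ(f) W ^ i E ^ (r - i)`: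
`‖M₀‖ ‖W‖ ^ r ≤ ‖M₀‖⁻¹ max_i ‖W‖ ^ i ‖E‖ ^ (r - i)` (`r = 0` is impossible), so `‖M₀‖ ^ 2 ‖W‖ ^ (r - i) ≤ ‖E‖ ^ (r - i)` for one `i < r`
(if `W ≠ 0`), so `‖M‖ ‖W‖ ≤ ‖E‖`, because `‖M‖ ^ (r - i) ≤ ‖M‖`.
-/

namespace Pool.Agent.LGO.CP

open MvPolynomial Pool.Agent.Hhelper14.ZPL Pool.Agent.LGO Pool.Agent.LGO.PA

private theorem IneqP_alg (g : Qb) : IsAlgebraic ℚ (g : ℂ) := mem_algebraicClosure_iff.1 g.2

private theorem IneqP_up (g : Qb) : ∃ m : ℕ, 0 < m ∧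
    ∀ (p : ℕ) [Fact p.Prime] (φ : ℂ →+* ℂ_[p]), ‖(m : ℂ_[p])‖ * ‖φ (g : ℂ)‖ ≤ 1 := by
  by_cases h0 : (g : ℂ) = 0
  · refine ⟨1, one_pos, fun p _ φ => ?_⟩
    rw [h0, map_zero, norm_zero, mul_zero]
    exact zero_le_one
  · obtain ⟨m, hm, h⟩ := alg_norm (IneqP_alg g) h0
    exact ⟨m, hm, fun p _ φ => (h p φ).1⟩

/-- upper bound for the values of a polynomial -/
private theorem IneqP_upper (A : Polynomial Qb) : ∃ m : ℕ, 0 < m ∧
    ∀ (p : ℕ) [Fact p.Prime] (φ : ℂ →+* ℂ_[p]) (t : ℂ),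
      ‖(m : ℂ_[p])‖ * ‖φ (Polynomial.aeval t A : ℂ)‖ ≤ max 1 ‖φ t‖ ^ A.natDegree := by
  choose m hm0 hm using fun g : Qb => IneqP_up g
  refine ⟨∏ i ∈ Finset.range (A.natDegree + 1), m (A.coeff i),
    Finset.prod_pos fun i _ => hm0 _, fun p _ φ t => ?_⟩
  have hM1 : (1 : ℝ) ≤ max 1 ‖φ t‖ := le_max_left _ _
  rw [Polynomial.aeval_eq_sum_range, map_sum, ← norm_mul, Finset.mul_sum]
  refine IsUltrametricDist.norm_sum_le_of_forall_le_of_nonneg (by positivity) ?_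
  intro i hi
  have hi' : i ≤ A.natDegree := Nat.lt_succ_iff.1 (Finset.mem_range.1 hi)
  rw [Algebra.smul_def, map_mul, map_pow, norm_mul, norm_mul, norm_pow,
    ← Finset.mul_prod_erase _ _ hi, Nat.cast_mul, norm_mul]
  have e1 := hm (A.coeff i) p φ
  have e2 : ‖((∏ x ∈ (Finset.range (A.natDegree + 1)).erase i, m (A.coeff x) : ℕ) : ℂ_[p])‖ ≤ 1 :=
    Pool.Agent.Hhelper14.ZP.norm_natCast_le _
  have e3 : ‖φ t‖ ^ i ≤ max 1 ‖φ t‖ ^ A.natDegree :=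
    (pow_le_pow_left₀ (norm_nonneg _) (le_max_right _ _) i).trans (pow_le_pow_right₀ hM1 hi')
  have e4 : ‖φ (algebraMap Qb ℂ (A.coeff i))‖ = ‖φ ((A.coeff i : Qb) : ℂ)‖ := rfl
  rw [e4]
  calc _ = (‖((m (A.coeff i) : ℕ) : ℂ_[p])‖ * ‖φ ((A.coeff i : Qb) : ℂ)‖) *
        ‖((∏ x ∈ (Finset.range (A.natDegree + 1)).erase i, m (A.coeff x) : ℕ) : ℂ_[p])‖ *
          ‖φ t‖ ^ i := by ring
    _ ≤ 1 * max 1 ‖φ t‖ ^ A.natDegree := by
        refine mul_le_mul ?_ e3 (by positivity) zero_le_one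
        exact mul_le_one₀ e1 (norm_nonneg _) e2
    _ = _ := one_mul _

/-- the values of a polynomial near infinity -/
private theorem IneqP_lead {P : Polynomial Qb} (hP : P ≠ 0) : ∃ m : ℕ, 0 < m ∧
    ∀ (p : ℕ) [Fact p.Prime] (φ : ℂ →+* ℂ_[p]) (t : ℂ), 1 < ‖(m : ℂ_[p])‖ * ‖φ t‖ →
      ‖(m : ℂ_[p])‖ * ‖φ t‖ ^ P.natDegree ≤ ‖φ (Polynomial.aeval t P : ℂ)‖ := by
  have hlc : P.leadingCoeff ≠ 0 := Polynomial.leadingCoeff_ne_zero.2 hP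
  have hlc' : ((P.leadingCoeff : Qb) : ℂ) ≠ 0 := by
    intro h
    exact hlc (by exact_mod_cast h)
  obtain ⟨m₂, hm₂, h₂⟩ := alg_norm (IneqP_alg P.leadingCoeff) hlc'
  obtain ⟨m₁, hm₁, h₁⟩ := IneqP_upper P.eraseLead
  have hdec : ∀ t : ℂ, (Polynomial.aeval t P : ℂ) = Polynomial.aeval t P.eraseLead +
      (P.leadingCoeff : ℂ) * t ^ P.natDegree := by
    intro t
    conv_lhs => rw [← P.eraseLead_add_monomial_natDegree_leadingCoeff]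
    rw [map_add, Polynomial.aeval_monomial]
    rfl
  refine ⟨m₁ * m₂, Nat.mul_pos hm₁ hm₂, fun p _ φ t ht => ?_⟩
  have hn1 : ‖(m₁ : ℂ_[p])‖ ≤ 1 := Pool.Agent.Hhelper14.ZP.norm_natCast_le m₁
  have hn2 : ‖(m₂ : ℂ_[p])‖ ≤ 1 := Pool.Agent.Hhelper14.ZP.norm_natCast_le m₂
  have hle : ‖((m₁ * m₂ : ℕ) : ℂ_[p])‖ ≤ ‖φ ((P.leadingCoeff : Qb) : ℂ)‖ := by
    rw [Nat.cast_mul, norm_mul]
    calc ‖(m₁ : ℂ_[p])‖ * ‖(m₂ : ℂ_[p])‖ ≤ 1 * ‖(m₂ : ℂ_[p])‖ :=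
          mul_le_mul_of_nonneg_right hn1 (norm_nonneg _)
      _ = ‖(m₂ : ℂ_[p])‖ := one_mul _
      _ ≤ _ := (h₂ p φ).2
  have hgoal : ‖φ (Polynomial.aeval t P : ℂ)‖ =
      ‖φ ((P.leadingCoeff : Qb) : ℂ)‖ * ‖φ t‖ ^ P.natDegree := by
    rcases Nat.eq_zero_or_pos P.natDegree with h0 | hpos
    · have h1 : P.eraseLead = 0 := by
        rcases P.eraseLead_natDegree_lt_or_eraseLead_eq_zero with h2 | h2
        · omega
        · exact h2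
      rw [hdec, h1, map_zero, zero_add, h0, pow_zero, pow_zero, mul_one, mul_one]
    · have hp1 : 0 < ‖(m₁ : ℂ_[p])‖ := norm_pos_iff.2 (by exact_mod_cast hm₁.ne')
      rw [Nat.cast_mul, norm_mul] at ht
      have hT1 : 1 < ‖φ t‖ := by
        by_contra hle
        push Not at hle
        have : ‖(m₁ : ℂ_[p])‖ * ‖(m₂ : ℂ_[p])‖ * ‖φ t‖ ≤ 1 :=
          mul_le_one₀ (mul_le_one₀ hn1 (norm_nonneg _) hn2) (norm_nonneg _) hle
        linarith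
      have hmax : max 1 ‖φ t‖ = ‖φ t‖ := max_eq_right hT1.le
      have he : ‖(m₁ : ℂ_[p])‖ * ‖φ (Polynomial.aeval t P.eraseLead : ℂ)‖ ≤
          ‖φ t‖ ^ (P.natDegree - 1) := by
        refine (h₁ p φ t).trans ?_
        rw [hmax]
        exact pow_le_pow_right₀ hT1.le P.eraseLead_natDegree_le
      have hpow : ‖φ t‖ ^ P.natDegree = ‖φ t‖ ^ (P.natDegree - 1) * ‖φ t‖ := by
        rw [← pow_succ, Nat.sub_add_cancel hpos]
      have hl := (h₂ p φ).2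
      have hlt : ‖φ (Polynomial.aeval t P.eraseLead : ℂ)‖ <
          ‖φ ((P.leadingCoeff : ℂ) * t ^ P.natDegree)‖ := by
        rw [map_mul, map_pow, norm_mul, norm_pow, hpow]
        have hq : 0 < ‖φ t‖ ^ (P.natDegree - 1) := by positivity
        refine lt_of_mul_lt_mul_left (lt_of_le_of_lt he ?_) hp1.le
        calc ‖φ t‖ ^ (P.natDegree - 1) < ‖φ t‖ ^ (P.natDegree - 1) *
              (‖(m₁ : ℂ_[p])‖ * ‖(m₂ : ℂ_[p])‖ * ‖φ t‖) := lt_mul_of_one_lt_right hq ht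
          _ = ‖(m₁ : ℂ_[p])‖ * (‖(m₂ : ℂ_[p])‖ * (‖φ t‖ ^ (P.natDegree - 1) * ‖φ t‖)) := by ring
          _ ≤ _ := mul_le_mul_of_nonneg_left
              (mul_le_mul_of_nonneg_right hl (by positivity)) hp1.le
      rw [hdec, map_add, IsUltrametricDist.norm_add_eq_max_of_norm_ne_norm hlt.ne,
        max_eq_right hlt.le, map_mul, map_pow, norm_mul, norm_pow]
  rw [hgoal]
  exact mul_le_mul_of_nonneg_right hle (by positivity)

/-- a product of two positive integers is small compared to each factor -/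
private theorem IneqP_mul_le {p : ℕ} [Fact p.Prime] (a b : ℕ) :
    ‖((a * b : ℕ) : ℂ_[p])‖ ≤ ‖(a : ℂ_[p])‖ := by
  rw [Nat.cast_mul, norm_mul]
  exact mul_le_of_le_one_right (norm_nonneg _) (Pool.Agent.Hhelper14.ZP.norm_natCast_le b)

private theorem IneqP_mul_le' {p : ℕ} [Fact p.Prime] (a b : ℕ) :
    ‖((a * b : ℕ) : ℂ_[p])‖ ≤ ‖(b : ℂ_[p])‖ := by
  rw [Nat.mul_comm]
  exact IneqP_mul_le b a

/-- the final estimate -/
private theorem IneqP_fin {K : Type*} [NormedField K] [IsUltrametricDist K] (r : ℕ) (Q W E : K)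
    (a : ℕ → K) (s T : ℝ) (hs : 0 < s) (hs1 : s ≤ 1) (hT : 0 < T) (hQ : s * T ≤ ‖Q‖)
    (ha : ∀ i ∈ Finset.range r, s * ‖a i‖ ≤ T)
    (h : Q * W ^ r + ∑ i ∈ Finset.range r, a i * W ^ i * E ^ (r - i) = 0) :
    s ^ 2 * ‖W‖ ≤ ‖E‖ := by
  by_contra hcon
  push Not at hcon
  have hs2 : s ^ 2 ≤ 1 := pow_le_one₀ hs.le hs1
  have hW : 0 < ‖W‖ := by
    by_contra hle
    have hW0 : ‖W‖ = 0 := le_antisymm (not_lt.1 hle) (norm_nonneg _)
    rw [hW0, mul_zero] at hcon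
    exact absurd hcon (not_lt.2 (norm_nonneg _))
  have h1 : Q * W ^ r = - ∑ i ∈ Finset.range r, a i * W ^ i * E ^ (r - i) :=
    eq_neg_of_add_eq_zero_left h
  have h2 := congrArg norm h1
  rw [norm_neg, norm_mul, norm_pow] at h2
  have hpos : 0 < s * T * ‖W‖ ^ r := by positivity
  have h3 : s * T * ‖W‖ ^ r ≤ ‖Q‖ * ‖W‖ ^ r := mul_le_mul_of_nonneg_right hQ (by positivity)
  rcases Nat.eq_zero_or_pos r with h0 | h0
  · subst h0
    rw [Finset.range_zero, Finset.sum_empty, norm_zero] at h2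
    linarith
  · obtain ⟨i, hi, h4⟩ := IsUltrametricDist.exists_norm_finsetSum_le_of_nonempty
      (t := Finset.range r) (Finset.nonempty_range_iff.2 (by omega))
      (fun i => a i * W ^ i * E ^ (r - i))
    have hir : i < r := Finset.mem_range.1 hi
    rw [norm_mul, norm_mul, norm_pow, norm_pow] at h4
    have h5 : ‖E‖ ^ (r - i) < s ^ 2 * ‖W‖ ^ (r - i) := by
      calc ‖E‖ ^ (r - i) < (s ^ 2 * ‖W‖) ^ (r - i) :=
            pow_lt_pow_left₀ hcon (norm_nonneg _) (by omega)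
        _ = (s ^ 2) ^ (r - i) * ‖W‖ ^ (r - i) := mul_pow _ _ _
        _ ≤ s ^ 2 * ‖W‖ ^ (r - i) := mul_le_mul_of_nonneg_right
            (pow_le_of_le_one (by positivity) hs2 (by omega)) (by positivity)
    have h6 : s * (‖a i‖ * ‖W‖ ^ i * ‖E‖ ^ (r - i)) < s * (s * T * ‖W‖ ^ r) := by
      calc s * (‖a i‖ * ‖W‖ ^ i * ‖E‖ ^ (r - i)) =
            (s * ‖a i‖) * (‖W‖ ^ i * ‖E‖ ^ (r - i)) := by ring
        _ ≤ T * (‖W‖ ^ i * ‖E‖ ^ (r - i)) :=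
            mul_le_mul_of_nonneg_right (ha i hi) (by positivity)
        _ < T * (‖W‖ ^ i * (s ^ 2 * ‖W‖ ^ (r - i))) :=
            mul_lt_mul_of_pos_left (mul_lt_mul_of_pos_left h5 (by positivity)) hT
        _ = s * (s * T * (‖W‖ ^ i * ‖W‖ ^ (r - i))) := by ring
        _ = s * (s * T * ‖W‖ ^ r) := by
            rw [← pow_add]
            congr 3
            omega
    have h7 : ‖a i‖ * ‖W‖ ^ i * ‖E‖ ^ (r - i) < s * T * ‖W‖ ^ r :=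
      lt_of_mul_lt_mul_left h6 hs.le
    linarith

theorem ineq_p {L : Type} [Field L] [Algebra Qb L] (ψ : Fin 3 → L)
    (F N D : MvPolynomial (Fin 3) Qb) (m : ℕ) (hD : aeval ψ D ≠ 0)
    (hc : Cert Qb (aeval ψ F) (aeval ψ F * (aeval ψ N / aeval ψ D) ^ m)) :
    ∃ M : ℕ, 0 < M ∧ ∀ (p : ℕ) [Fact p.Prime] (φ : ℂ →+* ℂ_[p]) (y : Fin 3 → ℂ),
      (∀ G : MvPolynomial (Fin 3) Qb, aeval ψ G = 0 → (aeval y G : ℂ) = 0) →
      1 < ‖φ ((M : ℂ) * (aeval y F : ℂ))‖ →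
      ‖(M : ℂ_[p])‖ * (‖φ (aeval y N : ℂ)‖ ^ m * ‖φ (aeval y F : ℂ)‖) ≤
        ‖φ (aeval y D : ℂ)‖ ^ m := by
  obtain ⟨r, q, p, hq, hp, hrel⟩ := hc
  set G : MvPolynomial (Fin 3) Qb := Polynomial.aeval F q * (F * N ^ m) ^ r +
    ∑ i ∈ Finset.range r, Polynomial.aeval F (p i) * (F * N ^ m) ^ i * (D ^ m) ^ (r - i) with hG
  have hG0 : aeval ψ G = 0 := by
    rw [hG, map_add, map_sum]
    simp only [map_mul, map_pow, ← Polynomial.aeval_algHom_apply]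
    set f' := aeval ψ F
    set n' := aeval ψ N
    set d' := aeval ψ D
    have hdm : d' ^ m ≠ 0 := pow_ne_zero _ hD
    have e1 : f' * n' ^ m = (f' * (n' / d') ^ m) * d' ^ m := by
      rw [div_pow]
      field_simp
    have e2 : Polynomial.aeval f' q * (f' * n' ^ m) ^ r +
        ∑ i ∈ Finset.range r, Polynomial.aeval f' (p i) * (f' * n' ^ m) ^ i * (d' ^ m) ^ (r - i) =
        (d' ^ m) ^ r * (Polynomial.aeval f' q * (f' * (n' / d') ^ m) ^ r +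
          ∑ i ∈ Finset.range r, Polynomial.aeval f' (p i) * (f' * (n' / d') ^ m) ^ i) := by
      rw [e1, mul_add, Finset.mul_sum]
      congr 1
      · rw [mul_pow]
        ring
      · refine Finset.sum_congr rfl fun i hi => ?_
        have hir : i + (r - i) = r := by
          rw [Finset.mem_range] at hi
          omega
        rw [mul_pow]
        conv_rhs => rw [← hir, pow_add]
        ring
    rw [e2, hrel, mul_zero]
  obtain ⟨m₀, hm₀, h₀⟩ := IneqP_lead hq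
  choose mp hmp0 hmp using fun i : ℕ => IneqP_upper (p i)
  set M₀ : ℕ := m₀ * ∏ i ∈ Finset.range r, mp i with hM₀
  have hM₀0 : 0 < M₀ := Nat.mul_pos hm₀ (Finset.prod_pos fun i _ => hmp0 i)
  refine ⟨M₀ ^ 2, pow_pos hM₀0 2, fun pp _ φ y hy hF => ?_⟩
  have hs1 : ‖(M₀ : ℂ_[pp])‖ ≤ 1 := Pool.Agent.Hhelper14.ZP.norm_natCast_le M₀
  have hs : 0 < ‖(M₀ : ℂ_[pp])‖ := norm_pos_iff.2 (by exact_mod_cast hM₀0.ne')
  have hy0 := hy G hG0
  have hφ := congrArg φ hy0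
  rw [hG, map_add, map_sum, map_add, map_sum] at hφ
  simp only [map_mul, map_pow, map_zero, ← Polynomial.aeval_algHom_apply] at hφ
  set t : ℂ := (aeval y F : ℂ) with ht
  rw [Nat.cast_pow, map_mul, map_pow, map_natCast, norm_mul, norm_pow] at hF
  have hF1 : 1 < ‖(M₀ : ℂ_[pp])‖ * ‖φ t‖ := by
    refine hF.trans_le (mul_le_mul_of_nonneg_right ?_ (norm_nonneg _))
    exact pow_le_of_le_one hs.le hs1 (by norm_num)
  have hF2 : 1 < ‖(m₀ : ℂ_[pp])‖ * ‖φ t‖ :=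
    hF1.trans_le (mul_le_mul_of_nonneg_right (IneqP_mul_le _ _) (norm_nonneg _))
  have hT1 : 1 < ‖φ t‖ := hF1.trans_le (mul_le_of_le_one_left (norm_nonneg _) hs1)
  have hfin := IneqP_fin r (φ (Polynomial.aeval t q)) (φ t * φ (aeval y N) ^ m)
    (φ (aeval y D) ^ m) (fun i => φ (Polynomial.aeval t (p i))) ‖(M₀ : ℂ_[pp])‖
    (‖φ t‖ ^ q.natDegree) hs hs1 (by positivity) ?_ ?_ hφ
  · rw [norm_mul, norm_pow, norm_pow] at hfin
    rw [Nat.cast_pow, norm_pow, mul_comm (‖φ (aeval y N : ℂ)‖ ^ m)]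
    exact hfin
  · refine (mul_le_mul_of_nonneg_right (IneqP_mul_le _ _) (by positivity)).trans (h₀ pp φ t hF2)
  · intro i hi
    have e1 : ‖(M₀ : ℂ_[pp])‖ ≤ ‖(mp i : ℂ_[pp])‖ := by
      rw [hM₀]
      refine (IneqP_mul_le' _ _).trans ?_
      rw [← Finset.mul_prod_erase _ _ hi]
      exact IneqP_mul_le _ _
    calc ‖(M₀ : ℂ_[pp])‖ * ‖φ (Polynomial.aeval t (p i))‖ ≤
          ‖(mp i : ℂ_[pp])‖ * ‖φ (Polynomial.aeval t (p i))‖ :=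
          mul_le_mul_of_nonneg_right e1 (norm_nonneg _)
      _ ≤ max 1 ‖φ t‖ ^ (p i).natDegree := hmp i pp φ t
      _ = ‖φ t‖ ^ (p i).natDegree := by rw [max_eq_right hT1.le]
      _ ≤ ‖φ t‖ ^ q.natDegree := pow_le_pow_right₀ hT1.le (hp i)

end Pool.Agent.LGO.CP
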