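import Mathlib
import Pool.Agent.LGO.PA.Link

/-!
# LGO/CP: LINK with the exact relation `q' ^ d = q ^ a`, and all solutions of it

PROOF.  (`PA/Exp.lean`, `PA/Link.lean`.)  `exp_classX`: the proof of `exp_class` with `q' = sO φ c * r ^ (a ^ 2)`; here `c ^ d = 1`: `qParam_act'`
(`Hhelper14/ZPL/Hecke.lean`) is proved with `c = exp (2 π i b / d)`; prove a form of it which also says `c ^ d = 1` (or: from
`exp (2 π i (B τ)) = c qN ^ (a ^ 2)` and `d (B τ) = a τ + b`, `qN ^ N = exp (2 π i τ)`, `c ^ d = exp (2 π i b) = 1`).  So `q' ^ d = r ^ (a ^ 2 d) = (r ^ N) ^ a`.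
`exp_allX`: let `q' ^ d = (r ^ N) ^ a`, `a d = N`.  Then `q' = ζ r ^ (a ^ 2)` with `ζ ^ d = 1`.  `φ (exp (2 π i / d))` is a primitive `d`-th root of unity in `ℂ_[p]`
(`IsPrimitiveRoot.map_of_injective`), so `ζ = φ (exp (2 π i b / d))` for a natural number `b < d` (`IsPrimitiveRoot.eq_pow_of_pow_eq_one`).  The matrix
`B = (a, b; 0, d)` lies in `DD N`; `Exp_rep` for it (as in `exp_top`).
`link_x`: the proof of `link` with `exp_classX`.  `link_all`: the proof of `link_top` with `exp_allX` (the private lemmas `Link_comb`, `Link_root`, `Link_main`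
of `PA/Link.lean` must be copied; in `link_all` the family `κ ↦ (yj κ, yb κ)` is the one of `exp_classX`, and `EvR.unique` identifies the
values at the class of `B`).
-/

namespace Pool.Agent.LGO.CP

open Pool.Agent.Hhelper14.ZP Pool.Agent.Hhelper14.ZPL UpperHalfPlane Pool.Agent.LGO
  Pool.Agent.LGO.PA

variable {p : ℕ} [Fact p.Prime] {N : ℕ}

private theorem LinkX_comb {K : Type*} [Field K] [CharZero K] {ι : Type*} [Fintype ι]
    (u1 u2 v1 v2 : ι → K)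
    (h : ∀ t : ℕ, Multiset.map (fun i => u1 i + (t : K) * u2 i) Finset.univ.val =
      Multiset.map (fun i => v1 i + (t : K) * v2 i) Finset.univ.val) :
    (∀ j, ∃ i, u1 i = v1 j ∧ u2 i = v2 j) ∧ (∀ i, ∃ j, u1 i = v1 j ∧ u2 i = v2 j) := by
  classical
  have hfin : Set.Finite (⋃ (i : ι), ⋃ (j : ι), {t : ℕ | ¬ (u1 i = v1 j ∧ u2 i = v2 j) ∧
      u1 i + (t : K) * u2 i = v1 j + (t : K) * v2 j}) := by
    refine Set.finite_iUnion fun i => Set.finite_iUnion fun j => Set.Subsingleton.finite ?_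
    rintro s ⟨hs1, hs2⟩ t ⟨_, ht2⟩
    by_contra hst
    have hst' : (s : K) - (t : K) ≠ 0 := by
      intro h0
      exact hst (by exact_mod_cast sub_eq_zero.mp h0)
    have h1 : ((s : K) - (t : K)) * (u2 i - v2 j) = 0 := by linear_combination hs2 - ht2
    have h2 : u2 i = v2 j := by
      rcases mul_eq_zero.mp h1 with h0 | h0
      · exact absurd h0 hst'
      · exact sub_eq_zero.mp h0
    refine hs1 ⟨?_, h2⟩
    rw [h2] at hs2
    exact add_right_cancel hs2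
  obtain ⟨t, ht⟩ := hfin.exists_notMem
  have ht' : ∀ i j, u1 i + (t : K) * u2 i = v1 j + (t : K) * v2 j →
      (u1 i = v1 j ∧ u2 i = v2 j) := by
    intro i j hij
    by_contra hcon
    exact ht (Set.mem_iUnion.mpr ⟨i, Set.mem_iUnion.mpr ⟨j, hcon, hij⟩⟩)
  refine ⟨fun j => ?_, fun i => ?_⟩
  · have hm : v1 j + (t : K) * v2 j ∈
        Multiset.map (fun i => v1 i + (t : K) * v2 i) Finset.univ.val :=
      Multiset.mem_map.mpr ⟨j, Finset.mem_univ j, rfl⟩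
    rw [← h t] at hm
    obtain ⟨i, -, hi⟩ := Multiset.mem_map.mp hm
    exact ⟨i, ht' i j hi⟩
  · have hm : u1 i + (t : K) * u2 i ∈
        Multiset.map (fun i => u1 i + (t : K) * u2 i) Finset.univ.val :=
      Multiset.mem_map.mpr ⟨i, Finset.mem_univ i, rfl⟩
    rw [h t] at hm
    obtain ⟨j, -, hj⟩ := Multiset.mem_map.mp hm
    exact ⟨j, ht' i j hj.symm⟩

private theorem LinkX_root (hN : 0 < N) {q : ℂ_[p]} (hq0 : 0 < ‖q‖) (hq : ‖q‖ < 1) :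
    ∃ r : ℂ_[p], r ^ N = q ∧ 0 < ‖r‖ ∧ ‖r‖ < 1 := by
  obtain ⟨r, hr⟩ := IsAlgClosed.exists_pow_nat_eq q hN
  have hn : ‖r‖ ^ N = ‖q‖ := by rw [← norm_pow, hr]
  refine ⟨r, hr, ?_, ?_⟩
  · rcases (norm_nonneg r).eq_or_lt with h0 | h0
    · rw [← h0, zero_pow hN.ne'] at hn
      rw [← hn] at hq0
      exact absurd hq0 (lt_irrefl _)
    · exact h0
  · by_contra hcon
    push Not at hcon
    have h1 : 1 ≤ ‖r‖ ^ N := one_le_pow₀ hcon
    rw [hn] at h1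
    exact absurd hq (not_lt.mpr h1)

private theorem LinkX_main (hN : 0 < N) (φ : ℂ →+* ℂ_[p]) {r : ℂ_[p]} (hr0 : 0 < ‖r‖)
    (hr : ‖r‖ < 1) (τ₀ : ℍ) (hφ : φ (jInv τ₀) = jP (r ^ N))
    (yj yb : QQ N → ℂ_[p]) (hj : ∀ κ, EvR N φ r (jQ hN κ) (yj κ))
    (hb : ∀ κ, EvR N φ r (bQ hN κ) (yb κ)) :
    (∀ κ', ∃ κ, yj κ = φ (jQ hN κ' τ₀) ∧ yb κ = φ (bQ hN κ' τ₀)) ∧
    (∀ κ, ∃ κ', yj κ = φ (jQ hN κ' τ₀) ∧ yb κ = φ (bQ hN κ' τ₀)) := by
  have hfi := finite_QQ hN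
  have : Fintype (QQ N) := Fintype.ofFinite _
  refine LinkX_comb yj yb (fun κ => φ (jQ hN κ τ₀)) (fun κ => φ (bQ hN κ τ₀)) fun t => ?_
  have h := sym_multiset (φ := φ) (r := r) hN hr0 hr
    (fun κ τ => jQ hN κ τ + (t : ℂ) * bQ hN κ τ) ?_ ?_
    (fun κ => yj κ + (t : ℂ_[p]) * yb κ) ?_ τ₀ ?_
  · rw [h]
    refine Multiset.map_congr rfl fun κ _ => ?_
    simp only [map_add, map_mul, map_natCast]
  · intro κ
    have h2 : (fun τ => jQ hN κ τ + (t : ℂ) * bQ hN κ τ) =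
        jQ hN κ + (t : ℍ → ℂ) * bQ hN κ := by
      funext τ
      simp
    rw [h2]
    exact (RR N).add_mem (jQ_mem hN κ) ((RR N).mul_mem (natCast_mem (RR N) t) (bQ_mem hN κ))
  · intro γ κ τ
    rw [jQ_rQ, bQ_rQ]
  · intro κ
    exact (hj κ).add hr ((EvR.natCast hr t).mul hr (hb κ))
  · rw [hφ]
    exact evR_j hN hr0 hr


/-- the constant of the expansion of the parameter is a root of unity -/
private theorem LinkX_unity (hN : 0 < N) (B : DD N) {a d : ℕ} {c : ℂ} (hd : 0 < d)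
    (had : a * d = N) (h00 : B.1 0 0 = (a : ℤ)) (h10 : B.1 1 0 = 0) (h11 : B.1 1 1 = (d : ℤ))
    (hq : ∀ τ : ℍ, Function.Periodic.qParam 1 (act hN B τ : ℂ) = c * qN N τ ^ (a ^ 2)) :
    c ^ d = 1 := by
  have hd' : (d : ℂ) ≠ 0 := by exact_mod_cast hd.ne'
  have h1 := hq UpperHalfPlane.I
  set τ : ℍ := UpperHalfPlane.I with hτ
  have h2 : Function.Periodic.qParam 1 (act hN B τ : ℂ) ^ d =
      Function.Periodic.qParam 1 (τ : ℂ) ^ a := by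
    rw [coe_act, h00, h10, h11]
    simp only [Function.Periodic.qParam]
    rw [← Complex.exp_nat_mul, ← Complex.exp_nat_mul, Complex.exp_eq_exp_iff_exists_int]
    refine ⟨B.1 0 1, ?_⟩
    simp only [Int.cast_zero, Int.cast_natCast, zero_mul, zero_add]
    push_cast
    field_simp
  have h3 : (qN N τ ^ (a ^ 2)) ^ d = Function.Periodic.qParam 1 (τ : ℂ) ^ a := by
    rw [← qN_pow hN, ← pow_mul, ← pow_mul, ← had]
    congr 1
    ring
  have h4 : Function.Periodic.qParam 1 (τ : ℂ) ^ a ≠ 0 :=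
    pow_ne_zero _ (Function.Periodic.qParam_ne_zero _)
  rw [h1, mul_pow, h3] at h2
  exact mul_right_cancel₀ h4 (by rw [h2, one_mul])

private theorem LinkX_class {φ : ℂ →+* ℂ_[p]} {r : ℂ_[p]} (hN : 0 < N) (hr0 : 0 < ‖r‖)
    (hr : ‖r‖ < 1) (κ : QQ N) :
    ∃ (a d : ℕ) (q' : ℂ_[p]), 0 < a ∧ 0 < d ∧ a * d = N ∧ 0 < ‖q'‖ ∧ ‖q'‖ < 1 ∧
      q' ^ d = (r ^ N) ^ a ∧ EvR N φ r (jQ hN κ) (jP q') ∧
      EvR N φ r (bQ hN κ) ((a : ℂ_[p]) ^ 12 * DP q' / DP (r ^ N)) := by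
  induction κ using Quotient.inductionOn' with
  | h A =>
    obtain ⟨B, hB, γ, rfl⟩ := exists_rep hN A
    rw [bQ_mk, bA_smul, jQ_mk, jA_smul]
    obtain ⟨a, d, c, ha, hd, had, h00, h11, hc, hc1, hq⟩ := Hhelper14.ZPL.qParam_act' hN hB
    obtain ⟨h1, h2, h3⟩ := Exp_rep (φ := φ) hN hr0 hr B ha hd had hB.1 h11 hc hc1 hq
    have ha2 : 0 < a ^ 2 := by positivity
    obtain ⟨hs0, hs⟩ := Exp_pow hr0 hr ha2
    refine ⟨a, d, _, ha, hd, had, ?_, ?_, ?_, h2, h3⟩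
    · rw [norm_mul, h1, one_mul]
      exact hs0
    · rw [norm_mul, h1, one_mul]
      exact hs
    · have hcd := LinkX_unity hN B hd had h00 hB.1 h11 hq
      have h5 : (⟨c, hc.2.1⟩ : OO) ^ d = 1 := Subtype.ext hcd
      rw [mul_pow, ← map_pow, h5, map_one, one_mul, ← pow_mul, ← pow_mul, ← had]
      congr 1
      ring

private theorem LinkX_all {φ : ℂ →+* ℂ_[p]} {r q' : ℂ_[p]} (hN : 0 < N) (hr0 : 0 < ‖r‖)
    (hr : ‖r‖ < 1) {a d : ℕ} (had : a * d = N) (hq' : q' ^ d = (r ^ N) ^ a) :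
    ∃ κ : QQ N, EvR N φ r (jQ hN κ) (jP q') := by
  have ha : 0 < a := Nat.pos_of_mul_pos_right (had ▸ hN)
  have hd : 0 < d := Nat.pos_of_mul_pos_left (had ▸ hN)
  have hd' : (d : ℂ) ≠ 0 := by exact_mod_cast hd.ne'
  have hr1 : r ≠ 0 := norm_pos_iff.mp hr0
  have hra : r ^ (a ^ 2) ≠ 0 := pow_ne_zero _ hr1
  have hζd : (q' / r ^ (a ^ 2)) ^ d = 1 := by
    rw [div_pow, hq', ← pow_mul, ← pow_mul, show N * a = a ^ 2 * d by rw [← had]; ring]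
    exact div_self (pow_ne_zero _ hr1)
  have : NeZero d := ⟨hd.ne'⟩
  have hprim : IsPrimitiveRoot (φ (Complex.exp (2 * Real.pi * Complex.I / d))) d :=
    (Complex.isPrimitiveRoot_exp d hd.ne').map_of_injective φ.injective
  obtain ⟨b, -, hb⟩ := hprim.eq_pow_of_pow_eq_one hζd
  set ζ := Complex.exp (2 * Real.pi * Complex.I / d) with hζ
  have hζ1 : ζ ^ d = 1 := (exp_pow_eq_one_iff hd d).mpr dvd_rfl
  have hζ0 : ζ ≠ 0 := Complex.exp_ne_zero _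
  have hζU : IsU ζ := by
    refine ⟨hζ0, zeta_mem hd, ?_⟩
    have h1 : ζ⁻¹ = ζ ^ (d - 1) := by
      rw [inv_eq_iff_eq_inv]
      refine eq_inv_of_mul_eq_one_left ?_
      rw [← pow_succ', Nat.sub_add_cancel hd, hζ1]
    rw [h1]
    exact OO.pow_mem (zeta_mem hd) _
  have hpow : IsU (ζ ^ b) := by
    clear hb
    induction b with
    | zero => simpa using IsU.one
    | succ n ih => rw [pow_succ]; exact ih.mul hζU
  let B : DD N := ⟨!![(a : ℤ), (b : ℤ); 0, (d : ℤ)], by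
    rw [Matrix.det_fin_two_of, ← had]; push_cast; ring⟩
  have hq : ∀ τ : ℍ, Function.Periodic.qParam 1 (act hN B τ : ℂ) = ζ ^ b * qN N τ ^ (a ^ 2) := by
    intro τ
    have hNc : (N : ℂ) = a * d := by rw [← had]; push_cast; ring
    rw [coe_act, hζ]
    simp only [B, qN, Function.Periodic.qParam]
    rw [← Complex.exp_nat_mul, ← Complex.exp_nat_mul, ← Complex.exp_add]
    congr 1
    simp only [Matrix.of_apply, Matrix.cons_val', Matrix.cons_val_zero, Matrix.cons_val_one,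
      Matrix.cons_val_fin_one]
    have ha' : (a : ℂ) ≠ 0 := by exact_mod_cast ha.ne'
    simp only [Int.cast_zero, Int.cast_natCast, zero_mul, zero_add]
    push_cast
    rw [hNc]
    field_simp
    ring
  have hn1 : ‖ζ ^ b‖ = 1 := by rw [norm_pow, norm_zeta, one_pow]
  obtain ⟨-, h2, -⟩ := Exp_rep (φ := φ) hN hr0 hr B ha hd had rfl rfl hpow hn1 hq
  refine ⟨Quotient.mk'' B, ?_⟩
  rw [jQ_mk]
  have h3 : sO φ ⟨ζ ^ b, hpow.2.1⟩ * r ^ (a ^ 2) = q' := by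
    have h4 : sO φ ⟨ζ ^ b, hpow.2.1⟩ = φ (ζ ^ b) := rfl
    rw [h4, map_pow, hb, div_mul_cancel₀ _ hra]
  rw [h3] at h2
  exact h2

theorem link_x (hN : 0 < N) (φ : ℂ →+* ℂ_[p]) {q : ℂ_[p]} (hq0 : 0 < ‖q‖) (hq : ‖q‖ < 1)
    (τ₀ : ℍ) (hφ : φ (jInv τ₀) = jP q) (A : DD N) :
    ∃ (a d : ℕ) (q' : ℂ_[p]), 0 < a ∧ 0 < d ∧ a * d = N ∧ 0 < ‖q'‖ ∧ ‖q'‖ < 1 ∧
      q' ^ d = q ^ a ∧ φ (jA hN A τ₀) = jP q' := by
  obtain ⟨r, rfl, hr0, hr⟩ := LinkX_root hN hq0 hq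
  choose a d q' h1 h2 h3 h4 h5 h6 h7 h8 using
    fun κ : QQ N => LinkX_class (φ := φ) hN hr0 hr κ
  obtain ⟨κ, hκ1, -⟩ := (LinkX_main hN φ hr0 hr τ₀ hφ _ _ h7 h8).1 (Quotient.mk'' A)
  rw [jQ_mk] at hκ1
  exact ⟨a κ, d κ, q' κ, h1 κ, h2 κ, h3 κ, h4 κ, h5 κ, h6 κ, hκ1.symm⟩

theorem link_all (hN : 0 < N) (φ : ℂ →+* ℂ_[p]) {q q' : ℂ_[p]} (hq0 : 0 < ‖q‖) (hq : ‖q‖ < 1)
    (τ₀ : ℍ) (hφ : φ (jInv τ₀) = jP q) {a d : ℕ} (had : a * d = N) (hq' : q' ^ d = q ^ a) :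
    ∃ A : DD N, φ (jA hN A τ₀) = jP q' := by
  obtain ⟨r, rfl, hr0, hr⟩ := LinkX_root hN hq0 hq
  choose a1 d1 q1 h1 h2 h3 h4 h5 h6 h7 h8 using
    fun κ : QQ N => LinkX_class (φ := φ) hN hr0 hr κ
  obtain ⟨κ, hκ⟩ := LinkX_all (φ := φ) hN hr0 hr had hq'
  obtain ⟨κ', hκ', -⟩ := (LinkX_main hN φ hr0 hr τ₀ hφ _ _ h7 h8).2 κ
  rw [EvR.unique hN hr0 hr (h7 κ) hκ] at hκ'
  induction κ' using Quotient.inductionOn' with
  | h A =>
    rw [jQ_mk] at hκ'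
    exact ⟨A, hκ'.symm⟩

end Pool.Agent.LGO.CP
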