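import Mathlib
import Pool.Agent.LGO.G.Pole
import Pool.Agent.LGO.G.Res
import Pool.Agent.LGO.G.Rank
import Pool.Agent.LGO.CP.Defs
import Pool.Agent.LGO.CP.IneqP

/-!
# LGO/CP: the coordinates near one common pole, at the finite places

The non-archimedean form of `cu_loc` (`LGO/F/CuLoc.lean`; copy its proof), with coprime exponents.
PROOF.  `rank_one` for `t = ψ 0`, `x = ψ 1`: `v(ψ 1) ^ l' = v(ψ 0) ^ k'`, `k', l' > 0`.  Let `g = gcd (k', l')`, `k' = g k`, `l' = g l`: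
`v(ψ 0 ^ k / ψ 1 ^ l) ^ g = 1`, so `v(ψ 0 ^ k / ψ 1 ^ l) = 1`, `k, l` coprime.  `exists_res`: `α ≠ 0` with `v(ψ 0 ^ k / ψ 1 ^ l - α) < 1`.
Three certificates from `exists_cert` (`G/Pole.lean`) and `ineq_p`, for `(N, D) = (1, X 0)`, `(1, X 1)`,
`(X 0 ^ k - C α * X 1 ^ l, X 1 ^ l)`; if `aeval ψ N = 0` (possible in the third case) then `aeval y N = 0` and the inequality is clear.
We get `M_a, m_a > 0` (`a = 0, 1, 2`).  `M = M_0 M_1 M_2`, `μ = m_0 + m_1 + m_2`.  If `1 < ‖φ (M f)‖ = ‖M‖ ‖φ f‖` then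
`1 < ‖φ (M_a f)‖` (`‖M‖ ≤ ‖M_a‖`).  `a = 0, 1`: `1 < ‖M_a‖ ‖φ f‖ ≤ ‖φ y_a‖ ^ m_a`, so `‖φ y_a‖ > 1` and the exponent may be increased
(and `φ y_1 ≠ 0`).  `a = 2`: `ρ = ‖φ y_0 ^ k / φ y_1 ^ l - φ α‖`, `‖M_2‖ ρ ^ m_2 ‖φ f‖ ≤ 1 < ‖M_2‖ ‖φ f‖`, so `ρ < 1` and the exponent may be increased.
-/

namespace Pool.Agent.LGO.CP

open MvPolynomial Pool.Agent.Hhelper14.ZPL Pool.Agent.LGO Pool.Agent.LGO.PA

private theorem LocP_cert {L : Type} [Field L] [Algebra Qb L] (hdep : Dep Qb L) (ψ : Fin 3 → L)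
    {O : ValuationSubring L} (hO : Over Qb O)
    {Φ : MvPolynomial (Fin 3) Qb} (hF : aeval ψ Φ ∉ O)
    (huniq : ∀ O' : ValuationSubring L, Over Qb O' → aeval ψ Φ ∉ O' → O' = O)
    (N D : MvPolynomial (Fin 3) Qb) (hD : aeval ψ D ≠ 0)
    (hv : O.valuation (aeval ψ N / aeval ψ D) < 1) :
    ∃ M m : ℕ, 0 < M ∧ 0 < m ∧ ∀ (p : ℕ) [Fact p.Prime] (φ : ℂ →+* ℂ_[p]) (y : Fin 3 → ℂ),
      (∀ G : MvPolynomial (Fin 3) Qb, aeval ψ G = 0 → (aeval y G : ℂ) = 0) →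
      1 < ‖φ ((M : ℂ) * (aeval y Φ : ℂ))‖ →
      ‖(M : ℂ_[p])‖ * (‖φ (aeval y N : ℂ)‖ ^ m * ‖φ (aeval y Φ : ℂ)‖) ≤
        ‖φ (aeval y D : ℂ)‖ ^ m := by
  obtain ⟨m, hm, hc⟩ := exists_cert hdep hO hF huniq hv
  by_cases hN : aeval ψ N = 0
  · refine ⟨1, m, one_pos, hm, fun p _ φ y hy _ => ?_⟩
    rw [hy N hN, map_zero, norm_zero, zero_pow hm.ne', zero_mul, mul_zero]
    positivity
  · obtain ⟨M, hM, h⟩ := ineq_p ψ Φ N D m hD (hc (div_ne_zero hN hD))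
    exact ⟨M, m, hM, hm, h⟩

/-- raise the exponent: a coordinate which is large -/
private theorem LocP_up {F n M M0 : ℝ} {m0 m : ℕ} (hn : 0 ≤ n)
    (hm : m0 ≤ m) (hM : M * F ≤ M0 * F) (h1 : 1 < M0 * F) (h2 : M0 * F ≤ n ^ m0) :
    M * F ≤ n ^ m ∧ 1 < n := by
  have h3 : 1 < n ^ m0 := lt_of_lt_of_le h1 h2
  have h4 : 1 < n := by
    by_contra hcon
    exact absurd h3 (not_lt.2 (pow_le_one₀ hn (not_lt.1 hcon)))
  exact ⟨(hM.trans h2).trans (pow_le_pow_right₀ h4.le hm), h4⟩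

/-- raise the exponent: the quotient -/
private theorem LocP_up2 {F ρ M M2 : ℝ} {m2 m : ℕ} (hρ : 0 ≤ ρ) (hF : 0 ≤ F) (hM : 0 ≤ M)
    (hm : m2 ≤ m) (hMM : M ≤ M2) (h1 : 1 < M2 * F) (h2 : M2 * (ρ ^ m2 * F) ≤ 1) :
    M * (ρ ^ m * F) ≤ 1 := by
  have h3 : ρ ^ m2 * (M2 * F) ≤ 1 := by
    calc ρ ^ m2 * (M2 * F) = M2 * (ρ ^ m2 * F) := by ring
      _ ≤ 1 := h2
  have h4 : ρ ≤ 1 := by
    by_contra hcon
    have h5 : 1 ≤ ρ ^ m2 := one_le_pow₀ (not_le.1 hcon).le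
    have h6 : M2 * F ≤ ρ ^ m2 * (M2 * F) := le_mul_of_one_le_left (by linarith) h5
    linarith
  have h5 : ρ ^ m ≤ ρ ^ m2 := pow_le_pow_of_le_one hρ h4 hm
  calc M * (ρ ^ m * F) ≤ M2 * (ρ ^ m2 * F) := by
        refine mul_le_mul hMM (mul_le_mul_of_nonneg_right h5 hF) (by positivity) (hM.trans hMM)
    _ ≤ 1 := h2

theorem cp_loc {L : Type} [Field L] [Algebra Qb L] (hdep : Dep Qb L) (ψ : Fin 3 → L)
    {O : ValuationSubring L} (hO : Over Qb O) (h0 : ψ 0 ∉ O) (h1 : ψ 1 ∉ O)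
    {Φ : MvPolynomial (Fin 3) Qb} (hF : aeval ψ Φ ∉ O)
    (huniq : ∀ O' : ValuationSubring L, Over Qb O' → aeval ψ Φ ∉ O' → O' = O) :
    ∃ (k l μ M : ℕ) (α : Qb), 0 < k ∧ 0 < l ∧ Nat.Coprime k l ∧ 0 < μ ∧ 0 < M ∧ α ≠ 0 ∧
      ∀ (p : ℕ) [Fact p.Prime] (φ : ℂ →+* ℂ_[p]) (y : Fin 3 → ℂ),
        (∀ G : MvPolynomial (Fin 3) Qb, aeval ψ G = 0 → (aeval y G : ℂ) = 0) →
        1 < ‖φ ((M : ℂ) * (aeval y Φ : ℂ))‖ →
        Nr φ k l μ M (α : ℂ) (y 0) (y 1) (aeval y Φ : ℂ) := by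
  have hψ0 : ψ 0 ≠ 0 := by
    intro h
    rw [h] at h0
    exact h0 O.zero_mem
  have hψ1 : ψ 1 ≠ 0 := by
    intro h
    rw [h] at h1
    exact h1 O.zero_mem
  have hv0 := one_lt_of_notMem h0
  have hv1 := one_lt_of_notMem h1
  obtain ⟨k, l, hk, hl, hcop, hlb⟩ : ∃ k l : ℕ, 0 < k ∧ 0 < l ∧ Nat.Coprime k l ∧
      O.valuation (ψ 1) ^ l = O.valuation (ψ 0) ^ k := by
    obtain ⟨l', b, hl', hlb⟩ := rank_one hdep hO h0 hψ1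
    have hb : 0 < b := by
      have h2 : 1 < O.valuation (ψ 0) ^ b := by
        rw [← hlb]
        exact one_lt_pow₀ hv1 hl'.ne'
      exact (one_lt_zpow_iff_right₀ hv0).1 h2
    obtain ⟨k', rfl⟩ : ∃ k : ℕ, b = k := ⟨b.toNat, (Int.toNat_of_nonneg hb.le).symm⟩
    have hk' : 0 < k' := by exact_mod_cast hb
    rw [zpow_natCast] at hlb
    obtain ⟨g, k, l, hg, hcop, hk, hl⟩ := Nat.exists_coprime' (Nat.gcd_pos_of_pos_left l' hk')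
    refine ⟨k, l, ?_, ?_, hcop, ?_⟩
    · rcases Nat.eq_zero_or_pos k with h | h
      · rw [h, zero_mul] at hk
        omega
      · exact h
    · rcases Nat.eq_zero_or_pos l with h | h
      · rw [h, zero_mul] at hl
        omega
      · exact h
    · rw [hk, hl, pow_mul, pow_mul] at hlb
      exact (pow_left_inj₀ zero_le zero_le hg.ne').1 hlb
  have hu : O.valuation (ψ 0 ^ k / ψ 1 ^ l) = 1 := by
    rw [map_div₀, map_pow, map_pow, hlb, div_self]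
    exact pow_ne_zero _ ((Valuation.ne_zero_iff _).2 hψ0)
  obtain ⟨α, hα⟩ := exists_res hdep hO h0 ((O.valuation_le_one_iff _).1 hu.le)
  have hα0 : α ≠ 0 := by
    rintro rfl
    rw [map_zero, sub_zero, hu] at hα
    exact lt_irrefl _ hα
  obtain ⟨M0, m0, hM0, hm0, hc0⟩ := LocP_cert hdep ψ hO hF huniq 1 (X 0)
    (by rw [aeval_X]; exact hψ0) (by
      rw [map_one, aeval_X, one_div, map_inv₀]
      exact inv_lt_one_of_one_lt₀ hv0)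
  obtain ⟨M1, m1, hM1, hm1, hc1⟩ := LocP_cert hdep ψ hO hF huniq 1 (X 1)
    (by rw [aeval_X]; exact hψ1) (by
      rw [map_one, aeval_X, one_div, map_inv₀]
      exact inv_lt_one_of_one_lt₀ hv1)
  obtain ⟨M2, m2, hM2, hm2, hc2⟩ := LocP_cert hdep ψ hO hF huniq
    (X 0 ^ k - MvPolynomial.C α * X 1 ^ l) (X 1 ^ l)
    (by rw [map_pow, aeval_X]; exact pow_ne_zero _ hψ1) (by
      rw [map_sub, map_mul, map_pow, map_pow, aeval_X, aeval_X, aeval_C]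
      have h2 : (ψ 0 ^ k - algebraMap Qb L α * ψ 1 ^ l) / ψ 1 ^ l =
          ψ 0 ^ k / ψ 1 ^ l - algebraMap Qb L α := by
        rw [sub_div, mul_div_assoc, div_self (pow_ne_zero _ hψ1), mul_one]
      rw [h2]
      exact hα)
  refine ⟨k, l, m0 + m1 + m2, M0 * M1 * M2, α, hk, hl, hcop, by omega, by positivity, hα0, ?_⟩
  intro p _ φ y hy hbig
  have n0 : ‖(M0 : ℂ_[p])‖ ≤ 1 := Pool.Agent.Hhelper14.ZP.norm_natCast_le M0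
  have n1 : ‖(M1 : ℂ_[p])‖ ≤ 1 := Pool.Agent.Hhelper14.ZP.norm_natCast_le M1
  have n2 : ‖(M2 : ℂ_[p])‖ ≤ 1 := Pool.Agent.Hhelper14.ZP.norm_natCast_le M2
  have p0 := norm_nonneg (M0 : ℂ_[p])
  have p1 := norm_nonneg (M1 : ℂ_[p])
  have p2 := norm_nonneg (M2 : ℂ_[p])
  have pF := norm_nonneg (φ (aeval y Φ : ℂ))
  have hM : ‖((M0 * M1 * M2 : ℕ) : ℂ_[p])‖ = ‖(M0 : ℂ_[p])‖ * ‖(M1 : ℂ_[p])‖ * ‖(M2 : ℂ_[p])‖ := by
    rw [Nat.cast_mul, Nat.cast_mul, norm_mul, norm_mul]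
  have hMF : ∀ n : ℕ, ‖φ ((n : ℂ) * (aeval y Φ : ℂ))‖ = ‖(n : ℂ_[p])‖ * ‖φ (aeval y Φ : ℂ)‖ := by
    intro n
    rw [map_mul, map_natCast, norm_mul]
  rw [hMF, hM] at hbig
  have l0 : ‖(M0 : ℂ_[p])‖ * ‖(M1 : ℂ_[p])‖ * ‖(M2 : ℂ_[p])‖ ≤ ‖(M0 : ℂ_[p])‖ := by
    calc ‖(M0 : ℂ_[p])‖ * ‖(M1 : ℂ_[p])‖ * ‖(M2 : ℂ_[p])‖ ≤ ‖(M0 : ℂ_[p])‖ * 1 * 1 := by gcongr
      _ = _ := by ring
  have l1 : ‖(M0 : ℂ_[p])‖ * ‖(M1 : ℂ_[p])‖ * ‖(M2 : ℂ_[p])‖ ≤ ‖(M1 : ℂ_[p])‖ := by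
    calc ‖(M0 : ℂ_[p])‖ * ‖(M1 : ℂ_[p])‖ * ‖(M2 : ℂ_[p])‖ ≤ 1 * ‖(M1 : ℂ_[p])‖ * 1 := by gcongr
      _ = _ := by ring
  have l2 : ‖(M0 : ℂ_[p])‖ * ‖(M1 : ℂ_[p])‖ * ‖(M2 : ℂ_[p])‖ ≤ ‖(M2 : ℂ_[p])‖ := by
    calc ‖(M0 : ℂ_[p])‖ * ‖(M1 : ℂ_[p])‖ * ‖(M2 : ℂ_[p])‖ ≤ 1 * 1 * ‖(M2 : ℂ_[p])‖ := by gcongr
      _ = _ := by ring
  have b0 := mul_le_mul_of_nonneg_right l0 pF
  have b1 := mul_le_mul_of_nonneg_right l1 pF
  have b2 := mul_le_mul_of_nonneg_right l2 pF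
  have e0 := hc0 p φ y hy (by rw [hMF]; linarith)
  rw [map_one, map_one, norm_one, one_pow, one_mul, aeval_X] at e0
  have e1 := hc1 p φ y hy (by rw [hMF]; linarith)
  rw [map_one, map_one, norm_one, one_pow, one_mul, aeval_X] at e1
  have e2 := hc2 p φ y hy (by rw [hMF]; linarith)
  rw [map_sub, map_mul, map_pow, map_pow, aeval_X, aeval_X, aeval_C, map_sub, map_mul, map_pow,
    map_pow] at e2
  have r0 := LocP_up (m := m0 + m1 + m2) (norm_nonneg _) (by omega) b0 (by linarith) e0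
  have r1 := LocP_up (m := m0 + m1 + m2) (norm_nonneg _) (by omega) b1 (by linarith) e1
  have hy1 : φ (y 1) ^ l ≠ 0 := by
    apply pow_ne_zero
    intro h
    rw [h, norm_zero] at r1
    exact absurd r1.2 (by norm_num)
  refine ⟨?_, ?_, ?_⟩
  · rw [hM]
    exact r0.1
  · rw [hM]
    exact r1.1
  · rw [hM]
    refine LocP_up2 (m2 := m2) (norm_nonneg _) pF (by positivity) (by omega) l2 (by linarith) ?_
    have h2 : φ (y 0) ^ k / φ (y 1) ^ l - φ (α : ℂ) =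
        (φ (y 0) ^ k - φ (α : ℂ) * φ (y 1) ^ l) / φ (y 1) ^ l := by
      rw [sub_div, mul_div_assoc, div_self hy1, mul_one]
    have h3 : 0 < ‖φ (y 1) ^ l‖ ^ m2 := pow_pos (norm_pos_iff.2 hy1) _
    rw [h2, norm_div, div_pow, div_mul_eq_mul_div, mul_div_assoc', div_le_one h3]
    exact e2

end Pool.Agent.LGO.CP
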