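import Mathlib
import Pool.Agent.LGO.PA.Tate

/-!
# LGO/CP: roots of unity in `ℂ_[p]` and the first term of `1 / j`

PROOF.  `unity_norm`: `Σ_{i < g} ζ ^ i = 0` (`ζ ≠ 1`), so `g = Σ_{i < g} (1 - ζ ^ i)`, and `1 - ζ ^ i` is `1 - ζ` times a sum of powers of `ζ` (norm `≤ 1` because
`‖ζ‖ = 1`, ultrametric inequality).
`jP_near`: `tate_R` (`PA/Tate.lean`): `R` with `coeff 0 R = 0`, `coeff 1 R = 1`, `ev R q = (jP q)⁻¹`; `ev_order` for `R - X` and `M = 2`: `‖(jP q)⁻¹ - q‖ ≤ ‖q‖ ^ 2`; divide by `q`.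
`w_near`: put `A = (jP q)⁻¹ / q`, `B = (jP q')⁻¹ / q'`, `‖A - 1‖ ≤ ‖q‖ < 1`, `‖B - 1‖ ≤ ‖q'‖ < 1`, so `‖A‖ = ‖B‖ = 1`, `‖A ^ k - 1‖ ≤ ‖q‖`, `‖B ^ l - 1‖ ≤ ‖q'‖`;
`jP q ^ k / jP q' ^ l = (q' ^ l / q ^ k) (B ^ l / A ^ k)` and `‖B ^ l / A ^ k - 1‖ = ‖B ^ l - A ^ k‖ ≤ max ‖q‖ ‖q'‖`.
-/

namespace Pool.Agent.LGO.CP

open Pool.Agent.LGO.PA

variable {p : ℕ} [Fact p.Prime]

private theorem NearQ_add_le {x y : ℂ_[p]} {c : ℝ} (hx : ‖x‖ ≤ c) (hy : ‖y‖ ≤ c) : ‖x + y‖ ≤ c :=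
  (IsUltrametricDist.norm_add_le_max x y).trans (max_le hx hy)

private theorem NearQ_pow {x : ℂ_[p]} (hx : ‖x‖ ≤ 1) (n : ℕ) : ‖x ^ n - 1‖ ≤ ‖x - 1‖ := by
  induction n with
  | zero => simp
  | succ n ih =>
    have h1 : x ^ (n + 1) - 1 = x ^ n * (x - 1) + (x ^ n - 1) := by ring
    rw [h1]
    refine NearQ_add_le ?_ ih
    rw [norm_mul, norm_pow]
    exact mul_le_of_le_one_left (norm_nonneg _) (pow_le_one₀ (norm_nonneg _) hx)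

private theorem NearQ_one {x : ℂ_[p]} (h : ‖x - 1‖ < 1) : ‖x‖ = 1 := by
  have h1 : ‖x - 1‖ < max ‖x‖ ‖(-1 : ℂ_[p])‖ := by
    rw [norm_neg, norm_one]
    exact h.trans_le (le_max_right _ _)
  rw [sub_eq_add_neg] at h1
  have h2 := IsUltrametricDist.norm_eq_of_add_norm_lt_max h1
  rwa [norm_neg, norm_one] at h2

private theorem NearQ_alg {A B q q' : ℂ_[p]} (hA : A ≠ 0) (hB : B ≠ 0) (hq : q ≠ 0)
    (hq' : q' ≠ 0) (k l : ℕ) : q' ^ l / q ^ k - (A * q)⁻¹ ^ k / (B * q')⁻¹ ^ l =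
      q' ^ l / q ^ k * ((A ^ k - 1 + -(B ^ l - 1)) / A ^ k) := by
  have hA' : A ^ k ≠ 0 := pow_ne_zero _ hA
  have hB' : B ^ l ≠ 0 := pow_ne_zero _ hB
  have h1 : q ^ k ≠ 0 := pow_ne_zero _ hq
  have h2 : q' ^ l ≠ 0 := pow_ne_zero _ hq'
  rw [inv_pow, inv_pow, mul_pow, mul_pow]
  generalize A ^ k = a at *
  generalize B ^ l = b at *
  generalize q ^ k = c at *
  generalize q' ^ l = d at *
  field_simp
  ring

theorem unity_norm {ζ : ℂ_[p]} {g : ℕ} (hg : 0 < g) (h : ζ ^ g = 1) (hne : ζ ≠ 1) :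
    ‖(g : ℂ_[p])‖ ≤ ‖ζ - 1‖ := by
  have h1 : ‖ζ‖ = 1 := by
    have h0 := congrArg (fun x : ℂ_[p] => ‖x‖) h
    simp only [norm_pow, norm_one] at h0
    exact (pow_eq_one_iff_of_nonneg (norm_nonneg _) hg.ne').mp h0
  have h2 : ∑ i ∈ Finset.range g, ζ ^ i = 0 := by
    have h3 := geom_sum_mul ζ g
    rw [h, sub_self] at h3
    exact (mul_eq_zero.mp h3).resolve_right (sub_ne_zero.mpr hne)
  have h4 : (g : ℂ_[p]) = ∑ i ∈ Finset.range g, (1 - ζ ^ i) := by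
    rw [Finset.sum_sub_distrib, h2, sub_zero]
    simp
  rw [h4]
  refine IsUltrametricDist.norm_sum_le_of_forall_le_of_nonneg (norm_nonneg _) ?_
  intro i _
  rw [norm_sub_rev]
  exact NearQ_pow h1.le i

theorem jP_near {q : ℂ_[p]} (hq0 : 0 < ‖q‖) (hq : ‖q‖ < 1) : ‖(jP q)⁻¹ / q - 1‖ ≤ ‖q‖ := by
  obtain ⟨R, hR0, hR1, hR⟩ := tate_R
  have hq' : q ≠ 0 := norm_pos_iff.mp hq0
  have h1 : (jP q)⁻¹ - q = ev (Int.castRingHom ℂ_[p]) (R - PowerSeries.X) q := by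
    rw [ev_sub castHom_norm_le hq, ev_X, hR p q hq]
  have h2 : ‖(jP q)⁻¹ - q‖ ≤ ‖q‖ ^ 2 := by
    rw [h1]
    refine ev_order castHom_norm_le hq _ 2 ?_
    intro n hn
    interval_cases n
    · rw [map_sub, hR0, PowerSeries.coeff_zero_X, sub_zero]
    · rw [map_sub, hR1, PowerSeries.coeff_one_X, sub_self]
  have h3 : (jP q)⁻¹ / q - 1 = ((jP q)⁻¹ - q) / q := by
    rw [sub_div, div_self hq']
  rw [h3, norm_div, div_le_iff₀ hq0]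
  nlinarith [h2]

theorem w_near {q q' : ℂ_[p]} (hq0 : 0 < ‖q‖) (hq : ‖q‖ < 1) (hq0' : 0 < ‖q'‖) (hq' : ‖q'‖ < 1)
    (k l : ℕ) : ‖q' ^ l / q ^ k - jP q ^ k / jP q' ^ l‖ ≤
      ‖q' ^ l / q ^ k‖ * max ‖q‖ ‖q'‖ := by
  have hA := jP_near hq0 hq
  have hB := jP_near hq0' hq'
  have hA1 : ‖(jP q)⁻¹ / q‖ = 1 := NearQ_one (hA.trans_lt hq)
  have hB1 : ‖(jP q')⁻¹ / q'‖ = 1 := NearQ_one (hB.trans_lt hq')
  have hAk := (NearQ_pow hA1.le k).trans hA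
  have hBl := (NearQ_pow hB1.le l).trans hB
  have hq1 : q ≠ 0 := norm_pos_iff.mp hq0
  have hq1' : q' ≠ 0 := norm_pos_iff.mp hq0'
  have hj : jP q ≠ 0 := by
    intro h0
    rw [h0, inv_zero, zero_div, norm_zero] at hA1
    exact zero_ne_one hA1
  have hj' : jP q' ≠ 0 := by
    intro h0
    rw [h0, inv_zero, zero_div, norm_zero] at hB1
    exact zero_ne_one hB1
  set A : ℂ_[p] := (jP q)⁻¹ / q with hAd
  set B : ℂ_[p] := (jP q')⁻¹ / q' with hBd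
  have hA0 : A ≠ 0 := by
    intro h0
    rw [h0, norm_zero] at hA1
    exact zero_ne_one hA1
  have hjA : jP q = (A * q)⁻¹ := by
    rw [hAd, div_mul_cancel₀ _ hq1, inv_inv]
  have hjB : jP q' = (B * q')⁻¹ := by
    rw [hBd, div_mul_cancel₀ _ hq1', inv_inv]
  have hB0 : B ≠ 0 := by
    intro h0
    rw [h0, norm_zero] at hB1
    exact zero_ne_one hB1
  have h1 : q' ^ l / q ^ k - jP q ^ k / jP q' ^ l =
      q' ^ l / q ^ k * ((A ^ k - 1 + -(B ^ l - 1)) / A ^ k) := by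
    rw [hjA, hjB]
    exact NearQ_alg hA0 hB0 hq1 hq1' k l
  rw [h1, norm_mul]
  refine mul_le_mul_of_nonneg_left ?_ (norm_nonneg _)
  rw [norm_div, norm_pow A, hA1, one_pow, div_one]
  refine NearQ_add_le (hAk.trans (le_max_left _ _)) ?_
  rw [norm_neg]
  exact hBl.trans (le_max_right _ _)

end Pool.Agent.LGO.CP
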