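import Mathlib
import Pool.Agent.LGO.H.MDeg
import Pool.Agent.LGO.CP.LinkX

/-!
# LGO/CP: isogenous numbers in `ℂ_[p]`, Tate parameters

PROOF.  `tate_pair`: `τ, τ'` with `jInv τ = x`, `jInv τ' = y` (from `IsogDeg`), `exists_prim_mdeg` (`H/MDeg.lean`): `g`, `det g = mdeg x y > 0`, `Maps g τ τ'`;
`Gal.eq_act_of_maps`: `τ' = act hN (mkDD g hd) τ`, so `jA hN (mkDD g hd) τ = y`; `link_x`.  (See `PS/LinkN.lean` for the same steps.)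
`tate_deg`: `τ₀` with `jInv τ₀ = x` (`exists_red`), `link_all` for `N = a * d`: `φ (jA hN A τ₀) = jP q' = φ y`, so `jA hN A τ₀ = y` (`φ` is injective) and
`isogDeg_iff` (`Gal/Basic.lean`).
-/

namespace Pool.Agent.LGO.CP

open Pool.Agent.Hhelper14.ZP Pool.Agent.Hhelper14.ZPL UpperHalfPlane Pool.Agent.LGO
  Pool.Agent.LGO.PA

variable {p : ℕ} [Fact p.Prime]

theorem tate_pair (φ : ℂ →+* ℂ_[p]) {x y : ℂ} (h : ∃ N, 0 < N ∧ IsogDeg N x y) {q : ℂ_[p]}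
    (hq0 : 0 < ‖q‖) (hq : ‖q‖ < 1) (hφ : φ x = jP q) :
    ∃ (a d : ℕ) (q' : ℂ_[p]), 0 < a ∧ 0 < d ∧ a * d = mdeg x y ∧ 0 < ‖q'‖ ∧ ‖q'‖ < 1 ∧
      q' ^ d = q ^ a ∧ φ y = jP q' := by
  obtain ⟨-, -, τ, τ', -, -, -, hx, hy⟩ := id h
  have h0 := h
  rw [hx, hy] at h0
  obtain ⟨g, hd, -, -, hm⟩ := exists_prim_mdeg h0
  rw [← hx, ← hy] at hd
  have hN : 0 < mdeg x y := mdeg_pos h
  have h2 : τ' = act hN (mkDD g hd) τ := Gal.eq_act_of_maps hN hd hm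
  obtain ⟨a, d, q', ha, hd0, had, hq'0, hq', hpow, hj⟩ :=
    link_x hN φ hq0 hq τ (by rw [← hx]; exact hφ) (mkDD g hd)
  have hjA : jA hN (mkDD g hd) τ = y := by
    rw [jA, ← h2, ← hy]
  rw [hjA] at hj
  exact ⟨a, d, q', ha, hd0, had, hq'0, hq', hpow, hj⟩

theorem tate_deg (φ : ℂ →+* ℂ_[p]) {x y : ℂ} {q q' : ℂ_[p]} (hq0 : 0 < ‖q‖) (hq : ‖q‖ < 1)
    (hφ : φ x = jP q) (hφ' : φ y = jP q') {a d : ℕ} (ha : 0 < a) (hd : 0 < d)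
    (hq' : q' ^ d = q ^ a) : IsogDeg (a * d) x y := by
  have hN : 0 < a * d := Nat.mul_pos ha hd
  obtain ⟨τ₀, -, hτ⟩ := exists_red x
  obtain ⟨A, hA⟩ := link_all hN φ hq0 hq τ₀ (by rw [hτ]; exact hφ) rfl hq'
  have hy : jA hN A τ₀ = y := φ.injective (hA.trans hφ'.symm)
  exact (Gal.isogDeg_iff hN).mpr ⟨τ₀, A, hτ.symm, hy.symm⟩

end Pool.Agent.LGO.CP
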