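import Mathlib
import Pool.Agent.LGO.PA.Cmp
import Pool.Agent.LGO.CP.Defs
import Pool.Agent.LGO.CP.TateP
import Pool.Agent.LGO.CP.NearQ

/-!
# LGO/CP: isogenous coordinates near a common pole, at one finite place

PROOF.  `PA.alg_norm` for `α`: `m > 0`, `‖m‖ ‖φ α‖ ≤ 1`, `‖m‖ ≤ ‖φ α‖`.  `g₀` = the order of `α` if `α` is a root of unity, `g₀ = 1` otherwise.
`M' = M m ^ μ` (times `m`, so that `m ∣ M'` also if .. `μ > 0`), `Λ = log m`, `C = 1 + k l g₀ ^ 2 + μ Λ + log M`.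
Let `f' = ‖φ f‖`; `1 < ‖M'‖ f'`.  `‖φ u‖ ^ μ ≥ ‖M‖ f' > 1`, so `‖φ u‖ > 1`, in the same way `‖φ v‖ > 1`.  `jP_surj`: `q` with `jP q = φ u`; `tate_pair`: `a, d, q'`,
`a d = N = mdeg u v`, `q' ^ d = q ^ a`, `φ v = jP q'`; `jP_norm`: `‖φ u‖ = ‖q‖⁻¹`, `‖φ v‖ = ‖q'‖⁻¹`.
`ρ = ‖φ u ^ k / φ v ^ l - φ α‖`: `ρ ^ μ ≤ 1 / (‖M‖ f') < ‖M'‖ / ‖M‖ = ‖m‖ ^ μ`, so `ρ < ‖m‖ ≤ ‖φ α‖` and `‖φ u ^ k / φ v ^ l‖ = ‖φ α‖`, that is `‖q'‖ ^ l = ‖φ α‖ ‖q‖ ^ k`.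
CASE 1, `k d ≠ l a`.  `T = - log ‖q‖ > 0`, `T' = - log ‖q'‖ > 0`, `d T' = a T`, `k T - l T' = log ‖φ α‖ =: λ`; `(k d - l a) T = d λ`,
`(k d - l a) T' = a λ`, so `λ ≠ 0`, `T ≤ d |λ|`, `T' ≤ a |λ|`, `T T' ≤ N λ ^ 2`, `|λ| ≤ Λ` (`‖(m : ℂ_[p])‖ ≥ 1 / m`, `int_norm_ge` in `PA/Ev.lean`).
`log f' ≤ μ T + log M`, `log f' ≤ μ T' + log M`, so `log f' ≤ log M + μ √(T T') ≤ log M + μ Λ √N ≤ C √N`.  `λ ≠ 0` gives `‖φ α‖ ≠ 1`, so `‖m‖ ≠ 1`, `p ∣ m ∣ M'`.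
CASE 2, `k d = l a`.  `k, l` coprime: `a = k g`, `d = l g`, `N = k l g ^ 2`.  `ω = q' ^ l / q ^ k`, `ω ^ g = q' ^ d / q ^ a = 1`, `‖ω‖ = 1` and so
`‖φ α‖ = ‖ω‖ = 1`.  `w_near`: `‖ω - φ α‖ ≤ max ρ ‖q‖ ‖q'‖ =: δ`, and `δ ^ μ ‖M‖ f' ≤ 1` in all three cases (`‖q‖ ^ μ = 1 / ‖φ u‖ ^ μ ≤ 1 / (‖M‖ f')`).
For all `n`: `‖ω ^ n - φ α ^ n‖ ≤ ‖ω - φ α‖ ≤ δ` (both of norm `1`).  `n = g`: `‖1 - φ α ^ g‖ ≤ δ`: the first claim (`‖M'‖ ≤ ‖M‖`).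
If `α ^ g = 1` then `g₀ ∣ g` and `ζ = ω ^ g₀` has `‖ζ - 1‖ ≤ δ`, `ζ ^ (g / g₀) = 1`.  If `ζ ≠ 1`: `‖g‖ ≤ ‖g / g₀‖ ≤ ‖ζ - 1‖` (`unity_norm`): the second claim.
If `ζ = 1` then `q' ^ (l g₀) = q ^ (k g₀)`, `tate_deg`: `IsogDeg (k g₀ (l g₀)) u v`, so `mdeg u v ≤ k l g₀ ^ 2 ≤ C`, which is excluded.
-/

namespace Pool.Agent.LGO.CP

open Pool.Agent.LGO Pool.Agent.LGO.PA

/-- the real variable part of the first case -/
private theorem LocQ_real {x y A nm nM F : ℝ} {a d k l μ m M : ℕ} (hx0 : 0 < x) (hx1 : x < 1)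
    (hy0 : 0 < y) (hy1 : y < 1) (had : y ^ d = x ^ a) (hA : 0 < A) (hyl : y ^ l = A * x ^ k)
    (hne : k * d ≠ l * a) (ha : 0 < a) (hd : 0 < d) (hm : 0 < m) (hM : 0 < M)
    (hnm : (m : ℝ)⁻¹ ≤ nm) (hnM : (M : ℝ)⁻¹ ≤ nM) (h1 : nm * A ≤ 1) (h2 : nm ≤ A) (hF : 0 < F)
    (hu : nM * F ≤ x⁻¹ ^ μ) (hv : nM * F ≤ y⁻¹ ^ μ) :
    A ≠ 1 ∧ F ≤ Real.exp ((1 + μ * Real.log m + Real.log M) * Real.sqrt ((a * d : ℕ) : ℝ)) := by
  have hm0 : (0 : ℝ) < m := Nat.cast_pos.2 hm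
  have hm1 : (1 : ℝ) ≤ m := Nat.one_le_cast.2 hm
  have hM0 : (0 : ℝ) < M := Nat.cast_pos.2 hM
  have hM1 : (1 : ℝ) ≤ M := Nat.one_le_cast.2 hM
  have hnm0 : 0 < nm := lt_of_lt_of_le (inv_pos.2 hm0) hnm
  have hnM0 : 0 < nM := lt_of_lt_of_le (inv_pos.2 hM0) hnM
  obtain ⟨T, hT⟩ : ∃ T : ℝ, T = - Real.log x := ⟨_, rfl⟩
  obtain ⟨T', hT'⟩ : ∃ T' : ℝ, T' = - Real.log y := ⟨_, rfl⟩
  obtain ⟨L, hL⟩ : ∃ L : ℝ, L = Real.log A := ⟨_, rfl⟩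
  have hT0 : 0 < T := by
    rw [hT]; linarith [Real.log_neg hx0 hx1]
  have hT0' : 0 < T' := by
    rw [hT']; linarith [Real.log_neg hy0 hy1]
  have e1 : (d : ℝ) * T' = a * T := by
    have h := congrArg Real.log had
    rw [Real.log_pow, Real.log_pow] at h
    rw [hT, hT']; linarith
  have e2 : (l : ℝ) * T' = k * T - L := by
    have h := congrArg Real.log hyl
    rw [Real.log_mul hA.ne' (pow_pos hx0 k).ne', Real.log_pow, Real.log_pow] at h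
    rw [hT, hT', hL]; linarith
  have ha0 : (0 : ℝ) < a := Nat.cast_pos.2 ha
  have hd0 : (0 : ℝ) < d := Nat.cast_pos.2 hd
  have e3 : ((k : ℝ) * d - l * a) * T = d * L := by
    linear_combination (l : ℝ) * e1 - (d : ℝ) * e2
  have e4 : ((k : ℝ) * d - l * a) * T' = a * L := by
    linear_combination (k : ℝ) * e1 - (a : ℝ) * e2
  have hcoef : (1 : ℝ) ≤ |(k : ℝ) * d - l * a| := by
    have h : (1 : ℤ) ≤ |(k : ℤ) * d - l * a| := by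
      refine Int.one_le_abs ?_
      intro h
      exact hne (by exact_mod_cast sub_eq_zero.1 h)
    exact_mod_cast h
  have hT2 : T ≤ d * |L| := by
    have h := congrArg abs e3
    rw [abs_mul, abs_mul, abs_of_pos hT0, abs_of_pos hd0] at h
    nlinarith
  have hT2' : T' ≤ a * |L| := by
    have h := congrArg abs e4
    rw [abs_mul, abs_mul, abs_of_pos hT0', abs_of_pos ha0] at h
    nlinarith
  have hL0 : L ≠ 0 := by
    intro h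
    rw [h, abs_zero, mul_zero] at hT2
    linarith
  have hA1 : A ≠ 1 := by
    intro h
    rw [h, Real.log_one] at hL
    exact hL0 hL
  refine ⟨hA1, ?_⟩
  have hLabs : |L| ≤ Real.log m := by
    rw [abs_le]
    constructor
    · rw [hL, ← Real.log_inv]
      exact Real.log_le_log (inv_pos.2 hm0) (hnm.trans h2)
    · rw [hL]
      refine Real.log_le_log hA ?_
      have h3 : (m : ℝ)⁻¹ * A ≤ 1 := (mul_le_mul_of_nonneg_right hnm hA.le).trans h1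
      rwa [inv_mul_le_iff₀ hm0, mul_one] at h3
  have hlogm : 0 ≤ Real.log m := Real.log_nonneg hm1
  have hlogM : 0 ≤ Real.log M := Real.log_nonneg hM1
  obtain ⟨S, hS⟩ : ∃ S : ℝ, S = Real.sqrt ((a * d : ℕ) : ℝ) := ⟨_, rfl⟩
  have hS1 : 1 ≤ S := by
    rw [hS]
    exact Real.one_le_sqrt.2 (by exact_mod_cast Nat.mul_pos ha hd)
  have hSS : S * S = a * d := by
    rw [hS, Real.mul_self_sqrt (Nat.cast_nonneg _)]
    push_cast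
    ring
  have hmin : min T T' ≤ S * Real.log m := by
    by_contra hcon
    have hcon' : S * Real.log m < min T T' := lt_of_not_ge hcon
    have h3 : S * Real.log m < T := lt_of_lt_of_le hcon' (min_le_left _ _)
    have h4 : S * Real.log m < T' := lt_of_lt_of_le hcon' (min_le_right _ _)
    have h5 : (S * Real.log m) * (S * Real.log m) < T * T' :=
      mul_lt_mul'' h3 h4 (by positivity) (by positivity)
    have h6 : T * T' ≤ (d * |L|) * (a * |L|) :=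
      mul_le_mul hT2 hT2' hT0'.le (by positivity)
    have h7 : (d * |L|) * (a * |L|) ≤ (S * Real.log m) * (S * Real.log m) := by
      have h8 : |L| * |L| ≤ Real.log m * Real.log m :=
        mul_le_mul hLabs hLabs (abs_nonneg _) hlogm
      have h9 : (d * |L|) * (a * |L|) = (S * S) * (|L| * |L|) := by rw [hSS]; ring
      have h10 : (S * Real.log m) * (S * Real.log m) = (S * S) * (Real.log m * Real.log m) := by
        ring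
      rw [h9, h10]
      exact mul_le_mul_of_nonneg_left h8 (mul_self_nonneg S)
    linarith
  have hlog : ∀ t : ℝ, 0 < t → nM * F ≤ t⁻¹ ^ μ → Real.log F ≤ μ * (- Real.log t) + Real.log M := by
    intro t ht h
    have h3 := Real.log_le_log (mul_pos hnM0 hF) h
    rw [Real.log_mul hnM0.ne' hF.ne', Real.log_pow, Real.log_inv] at h3
    have h4 : - Real.log M ≤ Real.log nM := by
      rw [← Real.log_inv]
      exact Real.log_le_log (inv_pos.2 hM0) hnM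
    linarith
  have h3 := hlog x hx0 hu
  have h4 := hlog y hy0 hv
  rw [← hT] at h3
  rw [← hT'] at h4
  have hμ0 : (0 : ℝ) ≤ μ := Nat.cast_nonneg μ
  have h5 : Real.log F ≤ μ * min T T' + Real.log M := by
    rcases le_total T T' with h | h
    · rw [min_eq_left h]; exact h3
    · rw [min_eq_right h]; exact h4
  have h6 : (μ : ℝ) * min T T' ≤ μ * (S * Real.log m) := mul_le_mul_of_nonneg_left hmin hμ0
  have h7 : Real.log M ≤ Real.log M * S := le_mul_of_one_le_right hlogM hS1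
  rw [← Real.log_le_iff_le_exp hF, ← hS]
  nlinarith

/-- powers of elements of norm one -/
private theorem LocQ_pow {p : ℕ} [Fact p.Prime] {x y : ℂ_[p]} (hx : ‖x‖ = 1) (hy : ‖y‖ = 1)
    (n : ℕ) : ‖x ^ n - y ^ n‖ ≤ ‖x - y‖ := by
  rw [← geom_sum₂_mul, norm_mul]
  refine mul_le_of_le_one_left (norm_nonneg _) ?_
  refine IsUltrametricDist.norm_sum_le_of_forall_le_of_nonneg zero_le_one fun i _ => ?_
  rw [norm_mul, norm_pow, norm_pow, hx, hy, one_pow, one_pow, mul_one]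

/-- the coprimality argument -/
private theorem LocQ_arith {a d k l : ℕ} (hk : 0 < k) (ha : 0 < a) (hkl : Nat.Coprime k l)
    (h : k * d = l * a) : ∃ g, 0 < g ∧ a = k * g ∧ d = l * g := by
  have h1 : k ∣ a := hkl.dvd_of_dvd_mul_left (Dvd.intro d h)
  obtain ⟨g, rfl⟩ := h1
  refine ⟨g, Nat.pos_of_mul_pos_left ha, rfl, ?_⟩
  refine Nat.eq_of_mul_eq_mul_left hk ?_
  rw [h]; ring

/-- a divisor -/
private theorem LocQ_dvd {p : ℕ} [Fact p.Prime] {m : ℕ} (h : ‖(m : ℂ_[p])‖ ≠ 1) : p ∣ m := by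
  rw [Pool.Agent.Hhelper14.ZP.norm_natCast_eq] at h
  have h1 : ‖(m : ℚ_[p])‖ ≤ 1 := by exact_mod_cast Padic.norm_int_le_one (p := p) (m : ℤ)
  exact Padic.norm_natCast_lt_one_iff.1 (lt_of_le_of_ne h1 h)

/-- the second case -/
private theorem LocQ_two {p : ℕ} [Fact p.Prime] {φ : ℂ →+* ℂ_[p]} {k l μ M m g : ℕ} {α u v f : ℂ}
    {q q' : ℂ_[p]} (hk : 0 < k) (hl : 0 < l) (hq0 : 0 < ‖q‖) (hq1 : ‖q‖ < 1)
    (hq0' : 0 < ‖q'‖) (hq1' : ‖q'‖ < 1) (hφ : φ u = jP q) (hφ' : φ v = jP q') (hg : 0 < g)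
    (hqq : q' ^ (l * g) = q ^ (k * g)) (hN : Nr φ k l μ M α u v f)
    (hA : ‖q'‖ ^ l = ‖φ α‖ * ‖q‖ ^ k)
    (hC : k * l * orderOf α ^ 2 < mdeg u v) :
    (α ^ g ≠ 1 → ‖((M * m ^ μ : ℕ) : ℂ_[p])‖ * (‖φ (α ^ g - 1)‖ ^ μ * ‖φ f‖) ≤ 1) ∧
          (α ^ g = 1 → ‖((M * m ^ μ : ℕ) : ℂ_[p])‖ * (‖(g : ℂ_[p])‖ ^ μ * ‖φ f‖) ≤ 1) := by
  have hqne : q ≠ 0 := norm_pos_iff.1 hq0
  have hqk : q ^ k ≠ 0 := pow_ne_zero _ hqne
  have hu : ‖φ u‖ = ‖q‖⁻¹ := by rw [hφ, jP_norm hq0 hq1]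
  have hv : ‖φ v‖ = ‖q'‖⁻¹ := by rw [hφ', jP_norm hq0' hq1']
  obtain ⟨ω, hω⟩ : ∃ ω : ℂ_[p], ω = q' ^ l / q ^ k := ⟨_, rfl⟩
  have hωg : ω ^ g = 1 := by
    rw [hω, div_pow, ← pow_mul, ← pow_mul, hqq, div_self (pow_ne_zero _ hqne)]
  have hω1 : ‖ω‖ = 1 := by
    have h := congrArg norm hωg
    rw [norm_pow, norm_one] at h
    exact (pow_eq_one_iff_of_nonneg (norm_nonneg _) hg.ne').1 h
  have hα1 : ‖φ α‖ = 1 := by
    rw [← hω1, hω, norm_div, norm_pow, norm_pow, hA, mul_div_assoc,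
      div_self (pow_pos hq0 k).ne', mul_one]
  obtain ⟨ρ, hρ⟩ : ∃ ρ : ℝ, ρ = ‖φ u ^ k / φ v ^ l - φ α‖ := ⟨_, rfl⟩
  obtain ⟨δ, hδ⟩ : ∃ δ : ℝ, δ = max ρ (max ‖q‖ ‖q'‖) := ⟨_, rfl⟩
  have hδ0 : 0 ≤ δ := by
    rw [hδ, hρ]; exact le_max_of_le_left (norm_nonneg _)
  have hwn : ‖ω - φ u ^ k / φ v ^ l‖ ≤ max ‖q‖ ‖q'‖ := by
    have h := w_near hq0 hq1 hq0' hq1' k l
    rw [← hω, ← hφ, ← hφ', hω1, one_mul] at h
    exact h
  have hωα : ‖ω - φ α‖ ≤ δ := by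
    have h : ω - φ α = (φ u ^ k / φ v ^ l - φ α) + (ω - φ u ^ k / φ v ^ l) := by ring
    rw [h, hδ, hρ]
    exact (IsUltrametricDist.norm_add_le_max _ _).trans (max_le_max le_rfl hwn)
  have hnM0 : 0 ≤ ‖(M : ℂ_[p])‖ := norm_nonneg _
  have hF0 : 0 ≤ ‖φ f‖ := norm_nonneg _
  have hcase : ∀ t : ℝ, 0 < t → ‖(M : ℂ_[p])‖ * ‖φ f‖ ≤ t⁻¹ ^ μ →
      ‖(M : ℂ_[p])‖ * (t ^ μ * ‖φ f‖) ≤ 1 := by
    intro t ht h
    have h1 : ‖(M : ℂ_[p])‖ * (t ^ μ * ‖φ f‖) = t ^ μ * (‖(M : ℂ_[p])‖ * ‖φ f‖) := by ring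
    rw [h1]
    calc t ^ μ * (‖(M : ℂ_[p])‖ * ‖φ f‖) ≤ t ^ μ * t⁻¹ ^ μ :=
          mul_le_mul_of_nonneg_left h (pow_pos ht μ).le
      _ = 1 := by rw [← mul_pow, mul_inv_cancel₀ ht.ne', one_pow]
  have hδM : ‖(M : ℂ_[p])‖ * (δ ^ μ * ‖φ f‖) ≤ 1 := by
    rcases max_choice ρ (max ‖q‖ ‖q'‖) with h | h
    · rw [hδ, h, hρ]
      exact hN.hr
    · rcases max_choice ‖q‖ ‖q'‖ with h' | h'
      · rw [hδ, h, h']
        exact hcase _ hq0 (hu ▸ hN.hu)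
      · rw [hδ, h, h']
        exact hcase _ hq0' (hv ▸ hN.hv)
  have hM'le : ‖((M * m ^ μ : ℕ) : ℂ_[p])‖ ≤ ‖(M : ℂ_[p])‖ := by
    rw [Nat.cast_mul, norm_mul]
    exact mul_le_of_le_one_right hnM0 (Pool.Agent.Hhelper14.ZP.norm_natCast_le _)
  have hfin : ∀ t : ℝ, 0 ≤ t → t ≤ δ → ‖((M * m ^ μ : ℕ) : ℂ_[p])‖ * (t ^ μ * ‖φ f‖) ≤ 1 := by
    intro t ht htδ
    refine le_trans ?_ hδM
    have h1 : t ^ μ * ‖φ f‖ ≤ δ ^ μ * ‖φ f‖ :=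
      mul_le_mul_of_nonneg_right (pow_le_pow_left₀ ht htδ μ) hF0
    exact mul_le_mul hM'le h1 (by positivity) hnM0
  constructor
  · intro _
    refine hfin _ (norm_nonneg _) ?_
    rw [map_sub, map_pow, map_one, ← hωg, norm_sub_rev]
    exact (LocQ_pow hω1 hα1 g).trans hωα
  · intro hαg
    refine hfin _ (norm_nonneg _) ?_
    obtain ⟨h, hgh⟩ := orderOf_dvd_of_pow_eq_one hαg
    have ho : 0 < orderOf α := by
      rw [orderOf_pos_iff]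
      exact isOfFinOrder_iff_pow_eq_one.2 ⟨g, hg, hαg⟩
    have hh : 0 < h := by
      rcases Nat.eq_zero_or_pos h with h0 | h0
      · rw [h0, mul_zero] at hgh
        omega
      · exact h0
    have hζ1 : ‖ω ^ orderOf α - 1‖ ≤ δ := by
      have e : (1 : ℂ_[p]) = φ α ^ orderOf α := by
        rw [← map_pow, pow_orderOf_eq_one, map_one]
      rw [e]
      exact (LocQ_pow hω1 hα1 _).trans hωα
    have hζ2 : (ω ^ orderOf α) ^ h = 1 := by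
      rw [← pow_mul, ← hgh, hωg]
    by_cases hζ : ω ^ orderOf α = 1
    · exfalso
      have h3 : q' ^ (l * orderOf α) = q ^ (k * orderOf α) := by
        rw [hω, div_pow, ← pow_mul, ← pow_mul, div_eq_one_iff_eq (pow_ne_zero _ hqne)] at hζ
        exact hζ
      have h4 := tate_deg φ hq0 hq1 hφ hφ' (Nat.mul_pos hk ho) (Nat.mul_pos hl ho) h3
      have h5 := mdeg_le (Nat.mul_pos (Nat.mul_pos hk ho) (Nat.mul_pos hl ho)) h4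
      have h6 : k * orderOf α * (l * orderOf α) = k * l * orderOf α ^ 2 := by ring
      rw [h6] at h5
      omega
    · have h3 := unity_norm hh hζ2 hζ
      rw [hgh, Nat.cast_mul, norm_mul]
      calc ‖(orderOf α : ℂ_[p])‖ * ‖(h : ℂ_[p])‖ ≤ 1 * ‖(h : ℂ_[p])‖ :=
            mul_le_mul_of_nonneg_right (Pool.Agent.Hhelper14.ZP.norm_natCast_le _) (norm_nonneg _)
        _ = ‖(h : ℂ_[p])‖ := one_mul _
        _ ≤ δ := h3.trans hζ1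

theorem loc_q {k l μ M : ℕ} (hk : 0 < k) (hl : 0 < l) (hkl : Nat.Coprime k l) (hμ : 0 < μ)
    (hM : 0 < M) {α : ℂ} (hα : IsAlgebraic ℚ α) (h0 : α ≠ 0) :
    ∃ (M' : ℕ) (C : ℝ), 0 < M' ∧ M ∣ M' ∧ 1 ≤ C ∧
      ∀ (p : ℕ) [Fact p.Prime] (φ : ℂ →+* ℂ_[p]) (u v f : ℂ),
        (∃ N, 0 < N ∧ IsogDeg N u v) → C < mdeg u v → Nr φ k l μ M α u v f →
        1 < ‖φ ((M' : ℂ) * f)‖ →
        (∃ g : ℕ, 0 < g ∧ mdeg u v = k * l * g ^ 2 ∧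
          (α ^ g ≠ 1 → ‖(M' : ℂ_[p])‖ * (‖φ (α ^ g - 1)‖ ^ μ * ‖φ f‖) ≤ 1) ∧
          (α ^ g = 1 → ‖(M' : ℂ_[p])‖ * (‖(g : ℂ_[p])‖ ^ μ * ‖φ f‖) ≤ 1)) ∨
        (p ∣ M' ∧ ‖φ f‖ ≤ Real.exp (C * Real.sqrt (mdeg u v))) := by
  obtain ⟨m, hm, hmα⟩ := alg_norm hα h0
  have hm1 : (1 : ℝ) ≤ m := Nat.one_le_cast.2 hm
  have hM1 : (1 : ℝ) ≤ M := Nat.one_le_cast.2 hM
  have hlogm : 0 ≤ Real.log m := Real.log_nonneg hm1
  have hlogM : 0 ≤ Real.log M := Real.log_nonneg hM1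
  refine ⟨M * m ^ μ, 1 + k * l * orderOf α ^ 2 + μ * Real.log m + Real.log M,
    Nat.mul_pos hM (Nat.pow_pos hm), Dvd.intro _ rfl, ?_, ?_⟩
  · have h1 : (0 : ℝ) ≤ k * l * orderOf α ^ 2 := by positivity
    have h2 : (0 : ℝ) ≤ μ * Real.log m := by positivity
    linarith
  intro p _ φ u v f hiso hC hN hbig
  obtain ⟨hα1, hα2⟩ := hmα p φ
  obtain ⟨nm, hnm⟩ : ∃ nm : ℝ, nm = ‖(m : ℂ_[p])‖ := ⟨_, rfl⟩
  obtain ⟨nM, hnM⟩ : ∃ nM : ℝ, nM = ‖(M : ℂ_[p])‖ := ⟨_, rfl⟩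
  have hnm1 : nm ≤ 1 := by rw [hnm]; exact Pool.Agent.Hhelper14.ZP.norm_natCast_le m
  have hnm2 : (m : ℝ)⁻¹ ≤ nm := by rw [hnm]; exact Pool.Agent.Hhelper14.ZP.norm_natCast_ge hm
  have hnM2 : (M : ℝ)⁻¹ ≤ nM := by rw [hnM]; exact Pool.Agent.Hhelper14.ZP.norm_natCast_ge hM
  have hnm0 : 0 < nm := lt_of_lt_of_le (inv_pos.2 (by linarith)) hnm2
  have hnM0 : 0 < nM := lt_of_lt_of_le (inv_pos.2 (by linarith)) hnM2
  have hbig' : 1 < nM * (nm ^ μ * ‖φ f‖) := by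
    have h : ‖φ (((M * m ^ μ : ℕ) : ℂ) * f)‖ = nM * (nm ^ μ * ‖φ f‖) := by
      rw [map_mul, map_natCast, norm_mul, Nat.cast_mul, norm_mul, Nat.cast_pow, norm_pow, hnm, hnM,
        mul_assoc]
    rw [← h]
    exact hbig
  have hNu := hN.hu
  have hNv := hN.hv
  have hNr := hN.hr
  rw [← hnM] at hNu hNv hNr
  have hF0 : 0 < ‖φ f‖ := by
    rcases (norm_nonneg (φ f)).lt_or_eq with h | h
    · exact h
    · rw [← h, mul_zero, mul_zero] at hbig'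
      linarith
  have hMF : 1 < nM * ‖φ f‖ := by
    refine lt_of_lt_of_le hbig' (mul_le_mul_of_nonneg_left ?_ hnM0.le)
    exact mul_le_of_le_one_left hF0.le (pow_le_one₀ hnm0.le hnm1)
  have hu1 : 1 < ‖φ u‖ := (one_lt_pow_iff_of_nonneg (norm_nonneg _) hμ.ne').1 (hMF.trans_le hNu)
  have hv1 : 1 < ‖φ v‖ := (one_lt_pow_iff_of_nonneg (norm_nonneg _) hμ.ne').1 (hMF.trans_le hNv)
  obtain ⟨q, hq0, hq1, hqj⟩ := jP_surj hu1
  obtain ⟨a, d, q', ha, hd, had, hq0', hq1', hqq, hφ'⟩ := tate_pair φ hiso hq0 hq1 hqj.symm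
  have hnu : ‖φ u‖ = ‖q‖⁻¹ := by rw [← hqj, jP_norm hq0 hq1]
  have hnv : ‖φ v‖ = ‖q'‖⁻¹ := by rw [hφ', jP_norm hq0' hq1']
  have hρ : ‖φ u ^ k / φ v ^ l - φ α‖ < ‖φ α‖ := by
    refine lt_of_lt_of_le ?_ hα2
    rw [← hnm]
    refine lt_of_pow_lt_pow_left₀ μ hnm0.le ?_
    have h1 : nM * (‖φ u ^ k / φ v ^ l - φ α‖ ^ μ * ‖φ f‖) < nM * (nm ^ μ * ‖φ f‖) :=
      lt_of_le_of_lt hNr hbig'
    exact lt_of_mul_lt_mul_right (lt_of_mul_lt_mul_left h1 hnM0.le) hF0.le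
  have hφα0 : 0 < ‖φ α‖ := lt_of_le_of_lt (norm_nonneg _) hρ
  have hnw : ‖φ u ^ k / φ v ^ l‖ = ‖φ α‖ := by
    have h1 := IsUltrametricDist.norm_add_eq_max_of_norm_ne_norm hρ.ne
    rw [sub_add_cancel, max_eq_right hρ.le] at h1
    exact h1
  have hA : ‖q'‖ ^ l = ‖φ α‖ * ‖q‖ ^ k := by
    rw [norm_div, norm_pow, norm_pow, hnu, hnv, inv_pow, inv_pow, div_inv_eq_mul] at hnw
    rw [← hnw, mul_right_comm, inv_mul_cancel₀ (pow_pos hq0 k).ne', one_mul]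
  by_cases hkd : k * d = l * a
  · left
    obtain ⟨g, hg, hag, hdg⟩ := LocQ_arith hk ha hkl hkd
    refine ⟨g, hg, ?_, ?_⟩
    · rw [← had, hag, hdg]; ring
    · have hC' : k * l * orderOf α ^ 2 < mdeg u v := by
        have h2 : (0 : ℝ) ≤ μ * Real.log m := by positivity
        have h3 : ((k * l * orderOf α ^ 2 : ℕ) : ℝ) < mdeg u v := by
          push_cast
          linarith
        exact_mod_cast h3
      refine LocQ_two hk hl hq0 hq1 hq0' hq1' hqj.symm hφ' hg ?_ hN hA hC'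
      rw [← hag, ← hdg]
      exact hqq
  · right
    have hyx : ‖q'‖ ^ d = ‖q‖ ^ a := by
      rw [← norm_pow, hqq, norm_pow]
    rw [← hnm] at hα1 hα2
    rw [hnu] at hNu
    rw [hnv] at hNv
    obtain ⟨h1, h2⟩ := LocQ_real hq0 hq1 hq0' hq1' hyx hφα0 hA hkd ha hd hm hM hnm2 hnM2 hα1 hα2
      hF0 hNu hNv
    constructor
    · have h3 : ‖(m : ℂ_[p])‖ ≠ 1 := by
        rw [← hnm]
        intro h4
        rw [h4, one_mul] at hα1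
        rw [h4] at hα2
        exact h1 (le_antisymm hα1 hα2)
      exact Dvd.dvd.mul_left (dvd_pow (LocQ_dvd h3) hμ.ne') M
    · refine h2.trans (Real.exp_le_exp.2 ?_)
      rw [had]
      refine mul_le_mul_of_nonneg_right ?_ (Real.sqrt_nonneg _)
      have h3 : (0 : ℝ) ≤ k * l * orderOf α ^ 2 := by positivity
      linarith

end Pool.Agent.LGO.CP
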