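import Mathlib
import Pool.Agent.LGO.H.BdC
import Pool.Agent.LGO.PA.Den
import Pool.Agent.LGO.PA.QInt
import Pool.Agent.LGO.PA.Cmp

/-!
# LGO/CP: the height of the value of the function with a pole at `O`

PROOF.  `PA.alg_norm` for `α`: `m_α`, `‖m_α‖ ‖φ α‖ ≤ 1` for all `φ`, so `max 1 ‖φ α‖ ≤ m_α` (`int_norm_ge`), and `max 1 ‖φ α‖ = 1` if `p` does not divide `m_α`.
`m = M m_α`.  Put `T = (α ^ g - 1) ^ μ` if `N = k l g ^ 2` for a (unique) `g > 0` and `α ^ g ≠ 1`, `T = g ^ μ` if `N = k l g ^ 2` and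
`α ^ g = 1`, and `T = 1` if `N` is not of this form; `T ≠ 0`, `g ≤ √N`.  For all `p`, `φ`:
`‖φ (m (T f))‖ ≤ 1` or (`p ∣ m` and `‖φ (T f)‖ ≤ exp (C₁ √N)`):
if `1 < ‖φ (M f)‖`, then the hypothesis (the `g` in it is the `g` above) gives `‖φ (M T f)‖ ≤ 1`, so `‖φ (m T f)‖ ≤ 1`, or `p ∣ M` and
`‖φ (T f)‖ ≤ m_α ^ (g μ) exp (C √N)`;
if `‖φ (M f)‖ ≤ 1` then `‖φ (m T f)‖ ≤ ‖φ T‖ ≤ 1` if `p` does not divide `m`, and `‖φ (T f)‖ ≤ m_α ^ (g μ) M` in general.
`PA.den_of`: a natural number `n ≤ exp (C₂ √N)` such that `n T f` is integral.  For all `s`: `‖s (T f)‖ ≤ (1 + B) ^ (g μ) * g ^ μ * exp (C √N)`, `B` a bound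
for the conjugates of `α`.  So `Bd K (C₃ √N) (T f)` (the house condition for the embeddings of `K` follows from the `s : ℂ ≃+* ℂ` : every embedding of `K` is the
restriction of an automorphism; see `bd_of_aut` in `H/BdC.lean`, which one can apply to `n T f`).  `Bd K (C₄ √N) T` (`Bd.pow`, `Bd.add`, `Bd.intCast`).
`PA.bd_div` for `y = T`, `z = T f`.
-/

namespace Pool.Agent.LGO.CP

open Pool.Agent.LGO Pool.Agent.LGO.PA

/-- an algebraic number is bounded in all fields which contain it -/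
private lemma YBd_alg {y : ℂ} (hy : IsAlgebraic ℚ y) :
    ∃ B : ℝ, 0 ≤ B ∧ ∀ K : IntermediateField ℚ ℂ, y ∈ K → Bd K B y := by
  -- denominator
  have hyZ : IsAlgebraic ℤ y := (IsFractionRing.isAlgebraic_iff ℤ ℚ ℂ).2 hy
  obtain ⟨n, hn0, hn⟩ := hyZ.exists_integral_multiple
  -- conjugates
  obtain ⟨p, hp, hp0⟩ := hy
  have hfin : (p.rootSet ℂ).Finite := Polynomial.rootSet_finite p ℂ
  obtain ⟨B, hB⟩ := (hfin.image fun z => ‖z‖).bddAbove
  have hnabs : 0 < n.natAbs := Int.natAbs_pos.2 hn0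
  have hn1 : (1 : ℝ) ≤ (n.natAbs : ℝ) := by exact_mod_cast hnabs
  refine ⟨(n.natAbs : ℝ) + max B 0, by positivity, fun K hK => ⟨hK, ?_, ?_⟩⟩
  · refine ⟨n.natAbs, hnabs, ?_, ?_⟩
    · have h1 := Real.add_one_le_exp ((n.natAbs : ℝ) + max B 0)
      have h2 : 0 ≤ max B 0 := le_max_right _ _
      linarith
    · have e : n • y = (n : ℂ) * y := by rw [zsmul_eq_mul]
      rw [e] at hn
      rcases Int.natAbs_eq n with h | h
      · have e2 : ((n.natAbs : ℕ) : ℂ) = (n : ℂ) := by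
          conv_rhs => rw [h]
          simp
        rw [e2]; exact hn
      · have e2 : ((n.natAbs : ℕ) : ℂ) = -(n : ℂ) := by
          conv_rhs => rw [h]
          simp
        rw [e2, neg_mul]; exact hn.neg
  · intro σ
    have h1 : Polynomial.aeval (σ ⟨y, hK⟩) p = 0 := by
      have h2 := Polynomial.aeval_algHom_apply (RingHom.toRatAlgHom σ) (⟨y, hK⟩ : K) p
      have h3 : Polynomial.aeval (⟨y, hK⟩ : K) p = 0 := by
        have h4 := Polynomial.aeval_algebraMap_apply ℂ (⟨y, hK⟩ : K) p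
        have h5 : algebraMap K ℂ (⟨y, hK⟩ : K) = y := rfl
        rw [h5, hp0] at h4
        exact (map_eq_zero_iff (algebraMap K ℂ) (algebraMap K ℂ).injective).1 h4.symm
      rw [h3, map_zero] at h2
      exact h2
    have h3 : σ ⟨y, hK⟩ ∈ p.rootSet ℂ := by
      rw [Polynomial.mem_rootSet]
      exact ⟨hp, h1⟩
    have h4 : ‖σ ⟨y, hK⟩‖ ≤ B := hB ⟨_, h3, rfl⟩
    have h5 := Real.add_one_le_exp ((n.natAbs : ℝ) + max B 0)
    have h6 : B ≤ max B 0 := le_max_left _ _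
    linarith

private lemma YBd_one {p : ℕ} [Fact p.Prime] {m : ℕ} (h : ¬ p ∣ m) : ‖(m : ℂ_[p])‖ = 1 := by
  have h1 : ((m : ℤ) : ℂ_[p]) = (m : ℂ_[p]) := by push_cast; rfl
  rw [← h1, Ev_int_eq, Int.cast_natCast, Padic.norm_natCast_eq_one_iff]
  exact (Nat.Prime.coprime_iff_not_dvd Fact.out).2 h

private lemma YBd_ge {p : ℕ} [Fact p.Prime] {m : ℕ} (h : 0 < m) : (m : ℝ)⁻¹ ≤ ‖(m : ℂ_[p])‖ := by
  have h1 := int_norm_ge (p := p) (n := (m : ℤ)) (by exact_mod_cast h.ne')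
  simpa using h1

/-- from `‖m‖ x ≤ 1` -/
private lemma YBd_le {p : ℕ} [Fact p.Prime] {m : ℕ} (h : 0 < m) {x : ℝ}
    (hx : ‖(m : ℂ_[p])‖ * x ≤ 1) : x ≤ m := by
  rcases le_or_gt x 0 with h0 | h0
  · exact h0.trans (Nat.cast_nonneg _)
  · have h1 := YBd_ge (p := p) h
    have hm : (0 : ℝ) < m := by exact_mod_cast h
    have h2 : (m : ℝ)⁻¹ * x ≤ 1 := (mul_le_mul_of_nonneg_right h1 h0.le).trans hx
    rwa [inv_mul_le_iff₀ hm, mul_one] at h2

private lemma YBd_nat_le {p : ℕ} [Fact p.Prime] (m : ℕ) : ‖(m : ℂ_[p])‖ ≤ 1 := by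
  have h1 := int_norm_le (p := p) (m : ℤ)
  rwa [Int.cast_natCast] at h1

/-- the norm of `a ^ g - 1` -/
private lemma YBd_sub {p : ℕ} [Fact p.Prime] {a : ℂ_[p]} {b : ℝ} (hb : 1 ≤ b) (ha : ‖a‖ ≤ b) (g : ℕ) :
    ‖a ^ g - 1‖ ≤ b ^ g := by
  have h0 : ‖a ^ g - 1‖ ≤ max ‖a ^ g‖ ‖(1 : ℂ_[p])‖ := by
    rw [sub_eq_add_neg, ← norm_neg (1 : ℂ_[p])]
    exact IsUltrametricDist.norm_add_le_max _ _
  refine h0.trans (max_le ?_ ?_)
  · rw [norm_pow]
    exact pow_le_pow_left₀ (norm_nonneg _) ha g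
  · rw [norm_one]
    exact one_le_pow₀ hb

private lemma YBd_pow {b : ℝ} (hb : 1 ≤ b) {g μ : ℕ} {s : ℝ} (hg : (g : ℝ) ≤ s) :
    (b ^ g) ^ μ ≤ Real.exp (μ * Real.log b * s) := by
  have hb0 : 0 < b := by linarith
  have h1 : (b ^ g) ^ μ = Real.exp (μ * Real.log b * g) := by
    rw [← pow_mul]
    conv_lhs => rw [← Real.exp_log hb0]
    rw [← Real.exp_nat_mul]
    push_cast
    ring_nf
  rw [h1]
  refine Real.exp_le_exp.2 (mul_le_mul_of_nonneg_left hg ?_)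
  exact mul_nonneg (Nat.cast_nonneg _) (Real.log_nonneg hb)

/-- the multiplier -/
private lemma YBd_T {k l μ M : ℕ} (hk : 0 < k) (hl : 0 < l) {α : ℂ} {ma : ℕ} (hma : 0 < ma)
    (hα : ∀ (p : ℕ) [Fact p.Prime] (φ : ℂ →+* ℂ_[p]), ‖(ma : ℂ_[p])‖ * ‖φ α‖ ≤ 1) {B : ℝ} (hB : 0 ≤ B)
    {K : IntermediateField ℚ ℂ} (hBα : Bd K B α) {N : ℕ} (hN : 1 ≤ N) :
    ∃ T : ℂ, T ≠ 0 ∧ Bd K (μ * (B + 1) * Real.sqrt N) T ∧
      (∀ (p : ℕ) [Fact p.Prime] (φ : ℂ →+* ℂ_[p]), ‖φ T‖ ≤ Real.exp (μ * Real.log ma * Real.sqrt N) ∧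
        (¬ p ∣ ma → ‖φ T‖ ≤ 1)) ∧
      ∀ (f : ℂ) (p : ℕ) [Fact p.Prime] (φ : ℂ →+* ℂ_[p]), (∃ g : ℕ, 0 < g ∧ N = k * l * g ^ 2 ∧
          (α ^ g ≠ 1 → ‖(M : ℂ_[p])‖ * (‖φ (α ^ g - 1)‖ ^ μ * ‖φ f‖) ≤ 1) ∧
          (α ^ g = 1 → ‖(M : ℂ_[p])‖ * (‖(g : ℂ_[p])‖ ^ μ * ‖φ f‖) ≤ 1)) →
        ‖(M : ℂ_[p])‖ * ‖φ (T * f)‖ ≤ 1 := by
  have hs1 : 1 ≤ Real.sqrt N := by
    rw [Real.one_le_sqrt]
    exact_mod_cast hN
  have hma1 : (1 : ℝ) ≤ ma := by exact_mod_cast hma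
  have hlog : 0 ≤ Real.log ma := Real.log_nonneg hma1
  have hμ0 : (0 : ℝ) ≤ μ := Nat.cast_nonneg _
  have hexp : 1 ≤ Real.exp (μ * Real.log ma * Real.sqrt N) :=
    Real.one_le_exp (by positivity)
  by_cases hg : ∃ g : ℕ, 0 < g ∧ N = k * l * g ^ 2
  · obtain ⟨g, hg0, hgN⟩ := hg
    have hgs : (g : ℝ) ≤ Real.sqrt N := by
      refine Real.le_sqrt_of_sq_le ?_
      have h1 : g ^ 2 ≤ N := by
        rw [hgN]
        exact Nat.le_mul_of_pos_left _ (Nat.mul_pos hk hl)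
      exact_mod_cast h1
    have huniq : ∀ g' : ℕ, 0 < g' → N = k * l * g' ^ 2 → g' = g := by
      intro g' _ h2
      rw [hgN] at h2
      have h3 := Nat.eq_of_mul_eq_mul_left (Nat.mul_pos hk hl) h2
      exact (Nat.pow_left_injective (by norm_num : (2 : ℕ) ≠ 0) h3).symm
    by_cases h1 : α ^ g = 1
    · refine ⟨(g : ℂ) ^ μ, pow_ne_zero _ (Nat.cast_ne_zero.2 hg0.ne'), ?_, ?_, ?_⟩
      · have h2 : Bd K (g : ℝ) (((g : ℤ) : ℂ)) := by
          refine Bd.intCast (g : ℤ) ?_ (Nat.cast_nonneg _)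
          rw [Int.cast_natCast, abs_of_nonneg (Nat.cast_nonneg _)]
          linarith [Real.add_one_le_exp (g : ℝ)]
        have h3 := h2.pow μ
        rw [Int.cast_natCast] at h3
        refine h3.mono ?_
        rw [mul_assoc]
        refine mul_le_mul_of_nonneg_left ?_ hμ0
        nlinarith
      · intro p _ φ
        have h2 : ‖φ ((g : ℂ) ^ μ)‖ ≤ 1 := by
          rw [map_pow, map_natCast, norm_pow]
          exact pow_le_one₀ (norm_nonneg _) (YBd_nat_le g)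
        exact ⟨h2.trans hexp, fun _ => h2⟩
      · rintro f p _ φ ⟨g', hg', e, -, h3⟩
        obtain rfl := huniq g' hg' e
        have := h3 h1
        rwa [map_mul, map_pow, map_natCast, norm_mul, norm_pow]
    · refine ⟨(α ^ g - 1) ^ μ, pow_ne_zero _ (sub_ne_zero.2 h1), ?_, ?_, ?_⟩
      · have h2 : Bd K 0 (((-1 : ℤ) : ℂ)) := Bd.intCast (-1) (by simp) le_rfl
        have h3 := ((hBα.pow g).add h2).pow μ
        have e : α ^ g + ((-1 : ℤ) : ℂ) = α ^ g - 1 := by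
          push_cast
          ring
        rw [e] at h3
        refine h3.mono ?_
        rw [mul_assoc]
        refine mul_le_mul_of_nonneg_left ?_ hμ0
        have h4 : (g : ℝ) * B ≤ Real.sqrt N * B := mul_le_mul_of_nonneg_right hgs hB
        nlinarith
      · intro p _ φ
        constructor
        · rw [map_pow, norm_pow, map_sub, map_pow, map_one]
          have h2 : ‖φ α‖ ≤ ma := YBd_le hma (hα p φ)
          exact (pow_le_pow_left₀ (norm_nonneg _) (YBd_sub hma1 h2 g) μ).trans (YBd_pow hma1 hgs)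
        · intro hp
          have h2 := hα p φ
          rw [YBd_one hp, one_mul] at h2
          rw [map_pow, norm_pow, map_sub, map_pow, map_one]
          refine pow_le_one₀ (norm_nonneg _) ?_
          have := YBd_sub le_rfl h2 g
          rwa [one_pow] at this
      · rintro f p _ φ ⟨g', hg', e, h3, -⟩
        obtain rfl := huniq g' hg' e
        have := h3 h1
        rwa [map_mul, map_pow, norm_mul, norm_pow]
  · refine ⟨1, one_ne_zero, ?_, ?_, ?_⟩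
    · have h2 : Bd K 0 (((1 : ℤ) : ℂ)) := Bd.intCast 1 (by simp) le_rfl
      rw [Int.cast_one] at h2
      exact h2.mono (by positivity)
    · intro p _ φ
      rw [map_one, norm_one]
      exact ⟨hexp, fun _ => le_rfl⟩
    · rintro f p _ φ ⟨g, hg0, hgN, -⟩
      exact absurd ⟨g, hg0, hgN⟩ hg

theorem y_bd {k l μ M : ℕ} (hk : 0 < k) (hl : 0 < l) (hμ : 0 < μ) (hM : 0 < M) {α : ℂ}
    (hα : IsAlgebraic ℚ α) (h0 : α ≠ 0) (C : ℝ) (hC : 1 ≤ C) :
    ∃ C' : ℝ, 1 ≤ C' ∧ ∀ (K : IntermediateField ℚ ℂ) [FiniteDimensional ℚ K] (N : ℕ) (f : ℂ),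
      1 ≤ N → α ∈ K → f ∈ K → (∀ s : ℂ ≃+* ℂ, ‖s f‖ ≤ Real.exp (C * Real.sqrt N)) →
      (∀ (p : ℕ) [Fact p.Prime] (φ : ℂ →+* ℂ_[p]), 1 < ‖φ ((M : ℂ) * f)‖ →
        (∃ g : ℕ, 0 < g ∧ N = k * l * g ^ 2 ∧
          (α ^ g ≠ 1 → ‖(M : ℂ_[p])‖ * (‖φ (α ^ g - 1)‖ ^ μ * ‖φ f‖) ≤ 1) ∧
          (α ^ g = 1 → ‖(M : ℂ_[p])‖ * (‖(g : ℂ_[p])‖ ^ μ * ‖φ f‖) ≤ 1)) ∨
        (p ∣ M ∧ ‖φ f‖ ≤ Real.exp (C * Real.sqrt N))) →
      Bd K (C' * Module.finrank ℚ K * Real.sqrt N) f := by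
  obtain ⟨B, hB, hBα⟩ := YBd_alg hα
  obtain ⟨ma, hma, hmα⟩ := alg_norm hα h0
  obtain ⟨CD, hCD, hden⟩ := den_of (M * ma) (Nat.mul_pos hM hma)
  have hma1 : (1 : ℝ) ≤ ma := by exact_mod_cast hma
  have hM1 : (1 : ℝ) ≤ M := by exact_mod_cast hM
  have hlma : 0 ≤ Real.log ma := Real.log_nonneg hma1
  have hlM : 0 ≤ Real.log M := Real.log_nonneg hM1
  set C5 : ℝ := μ * Real.log ma with hC5
  have hC50 : 0 ≤ C5 := by positivity
  set G0 : ℝ := C + C5 + Real.log M with hG0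
  set CT : ℝ := μ * (B + 1) with hCT
  have hCT0 : 0 ≤ CT := by positivity
  set G1 : ℝ := CD * (1 + G0) + CT + C with hG1
  have hG00 : 0 ≤ G0 := by positivity
  have hG10 : C ≤ G1 := by
    have : 0 ≤ CD * (1 + G0) := by positivity
    linarith
  refine ⟨3 * G1, by linarith, fun K _ N f hN hαK hfK hs hloc => ?_⟩
  have hs1 : 1 ≤ Real.sqrt N := by
    rw [Real.one_le_sqrt]
    exact_mod_cast hN
  obtain ⟨T, hT0, hTB, hTp, hTf⟩ := YBd_T (M := M) (μ := μ) hk hl hma (fun p _ φ => (hmα p φ).1) hB (hBα K hαK) hN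
  have hTf_mem : T * f ∈ K := K.mul_mem hTB.mem hfK
  have halg : IsAlgebraic ℚ (T * f) := by
    have h1 : IsAlgebraic ℚ (⟨T * f, hTf_mem⟩ : K) := Algebra.IsAlgebraic.isAlgebraic _
    exact h1.algebraMap
  -- the denominator
  obtain ⟨n, hn, hnB, hint⟩ := hden (T * f) (G0 * Real.sqrt N) halg (by positivity) (by
    intro p _ φ
    by_cases hp : p ∣ M * ma
    · right
      refine ⟨hp, ?_⟩
      have hbig : ∀ x : ℝ, x ≤ M → x * Real.exp (C5 * Real.sqrt N) ≤ Real.exp (G0 * Real.sqrt N) := by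
        intro x hx
        have h1 : (M : ℝ) = Real.exp (Real.log M) := (Real.exp_log (by linarith)).symm
        calc x * Real.exp (C5 * Real.sqrt N) ≤ Real.exp (Real.log M) * Real.exp (C5 * Real.sqrt N) := by
              rw [← h1]
              exact mul_le_mul_of_nonneg_right hx (Real.exp_pos _).le
          _ = Real.exp (Real.log M + C5 * Real.sqrt N) := (Real.exp_add _ _).symm
          _ ≤ Real.exp (G0 * Real.sqrt N) := by
              refine Real.exp_le_exp.2 ?_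
              rw [hG0]
              nlinarith
      by_cases h1 : 1 < ‖φ ((M : ℂ) * f)‖
      · rcases hloc p φ h1 with h2 | ⟨-, h2⟩
        · have h3 := YBd_le hM (hTf f p φ h2)
          have h4 := hbig _ h3
          have h5 : 1 ≤ Real.exp (C5 * Real.sqrt N) := Real.one_le_exp (by positivity)
          calc ‖φ (T * f)‖ = ‖φ (T * f)‖ * 1 := (mul_one _).symm
            _ ≤ ‖φ (T * f)‖ * Real.exp (C5 * Real.sqrt N) := mul_le_mul_of_nonneg_left h5 (norm_nonneg _)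
            _ ≤ _ := h4
        · rw [map_mul, norm_mul]
          calc ‖φ T‖ * ‖φ f‖ ≤ Real.exp (C5 * Real.sqrt N) * Real.exp (C * Real.sqrt N) :=
                mul_le_mul (hTp p φ).1 h2 (norm_nonneg _) (Real.exp_pos _).le
            _ = Real.exp (C5 * Real.sqrt N + C * Real.sqrt N) := (Real.exp_add _ _).symm
            _ ≤ Real.exp (G0 * Real.sqrt N) := by
                refine Real.exp_le_exp.2 ?_
                rw [hG0]
                nlinarith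
      · rw [not_lt, map_mul, map_natCast, norm_mul] at h1
        have h2 := YBd_le hM h1
        rw [map_mul, norm_mul, mul_comm]
        calc ‖φ f‖ * ‖φ T‖ ≤ ‖φ f‖ * Real.exp (C5 * Real.sqrt N) :=
              mul_le_mul_of_nonneg_left (hTp p φ).1 (norm_nonneg _)
          _ ≤ _ := hbig _ h2
    · left
      have hpM : ¬ p ∣ M := fun h => hp (h.mul_right _)
      have hpa : ¬ p ∣ ma := fun h => hp (h.mul_left _)
      rw [map_mul, map_natCast, norm_mul, Nat.cast_mul, norm_mul, YBd_one hpM, YBd_one hpa, one_mul,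
        one_mul]
      by_cases h1 : 1 < ‖φ ((M : ℂ) * f)‖
      · rcases hloc p φ h1 with h2 | ⟨h2, -⟩
        · have h3 := hTf f p φ h2
          rwa [YBd_one hpM, one_mul] at h3
        · exact absurd h2 hpM
      · rw [not_lt, map_mul, map_natCast, norm_mul, YBd_one hpM, one_mul] at h1
        rw [map_mul, norm_mul]
        exact mul_le_one₀ ((hTp p φ).2 hpa) (norm_nonneg _) h1)
  have hz : Bd K (G1 * Real.sqrt N) (T * f) := by
    refine ⟨hTf_mem, ⟨n, hn, hnB.trans (Real.exp_le_exp.2 ?_), hint⟩, fun σ => ?_⟩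
    · have h1 : CD * (1 + G0 * Real.sqrt N) ≤ CD * ((1 + G0) * Real.sqrt N) := by
        refine mul_le_mul_of_nonneg_left ?_ (by linarith)
        nlinarith
      have h2 : 0 ≤ (CT + C) * Real.sqrt N := by positivity
      rw [hG1]
      nlinarith
    · obtain ⟨s, hs'⟩ := exists_aut K σ
      rw [← hs' ⟨T * f, hTf_mem⟩]
      change ‖s (T * f)‖ ≤ _
      rw [map_mul, norm_mul]
      calc ‖s T‖ * ‖s f‖ ≤ Real.exp (CT * Real.sqrt N) * Real.exp (C * Real.sqrt N) :=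
            mul_le_mul (hTB.aut s) (hs s) (norm_nonneg _) (Real.exp_pos _).le
        _ = Real.exp (CT * Real.sqrt N + C * Real.sqrt N) := (Real.exp_add _ _).symm
        _ ≤ Real.exp (G1 * Real.sqrt N) := by
            refine Real.exp_le_exp.2 ?_
            have : 0 ≤ CD * (1 + G0) * Real.sqrt N := by positivity
            rw [hG1]
            nlinarith
  have hy : Bd K (G1 * Real.sqrt N) T := by
    refine hTB.mono ?_
    refine mul_le_mul_of_nonneg_right ?_ (by positivity)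
    have : 0 ≤ CD * (1 + G0) := by positivity
    linarith
  have hfin := bd_div (K := K) (D := Module.finrank ℚ K) le_rfl hy hz hT0
  have e : T * f / T = f := by
    field_simp
  rw [e] at hfin
  refine hfin.mono (le_of_eq ?_)
  ring

end Pool.Agent.LGO.CP
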