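import Mathlib
import Pool.Agent.LGO.G.FunF
import Pool.Agent.LGO.G.Geo
import Pool.Agent.LGO.F.CuGeo
import Pool.Agent.LGO.F.CuPl
import Pool.Agent.LGO.F.CuCov
import Pool.Agent.LGO.Gal.Fin
import Pool.Agent.LGO.H.MDeg
import Pool.Agent.LGO.H.BdC
import Pool.Agent.LGO.PA.QInt
import Pool.Agent.LGO.CP.LocP
import Pool.Agent.LGO.CP.LocQ
import Pool.Agent.LGO.CP.YBd
import Pool.Agent.LGO.CP.Coord
import Pool.Agent.LGO.CP.ArchY

/-!
# LGO/CP: the lower bound for the degree at a common pole (note 3099 (2), any curve)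

PROOF.  `cp_place`: for the triple `![i, j, a]`.  `exists_funQ` (`G/FunF.lean`): `L, ψ`, `Dep`, generation, zero criterion, finiteness; `ψ 0`, `ψ 1` are transcendental
(`hi`, `hj`, `const_of_isAlgebraic` in `G/Geo.lean`, as in the proof of `cu_geo`).  `F.cu_places` (`F/CuPl.lean`): `r, O, Φ`.  If `r = 0`: `F.cu_cov` (`F/CuCov.lean`)
gives `C` such that `‖s (x i)‖ < C` or `‖s (x j)‖ < C` always: the first alternative (the same argument is in `pole_dich`, `F/CuHt.lean`, from `cu_geo`).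
Otherwise take the index `0`: `O = O 0`, `Φ = Φ 0`.
`cp_main`: suppose that the first alternative is false.  Let `a : Fin n`, `i' = ![i, j, a]`, `Φ, O, ψ` as above.  `cp_loc`: `k, l, μ, M, α`; `loc_q`: `M' ≥ M`, `C_q`; `arch_y`: `C_a`, `E_a`;
`y_bd` for `M'` and `C = max C_q C_a`: `C_y`; `val_mem` for `Φ`: `K_1`; `coord_bd` for `Φ` (not constant on `V`: `aeval ψ Φ` is transcendental) and the index `2`: `K_2, C_c, E_c`.
`K_3 = K_1 ⊔ K_2 ⊔ ℚ(α)`, finite of degree `m_3`.  `E = E_a ∪ E_c ∪ {x ∈ V | ∃ d ≤ ⌈C_q⌉, IsogDeg d (x i) (x j)}` (`finite_isogDeg_le`, `Gal/Fin.lean`).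
Let `x ∈ V`, `x ∉ E`, `K`.  `K' = K ⊔ K_3`, `[K' : ℚ] ≤ m_3 [K : ℚ]`, `f = Φ(x) ∈ K'`.  `mdeg > C_q` because `x ∉ E` (`mdeg_spec`).  For `1 < ‖φ (M' f)‖` also `1 < ‖φ (M f)‖` (`M ∣ M'`), so
`cp_loc` gives `Nr`, and `loc_q` the hypothesis of `y_bd` with `N = mdeg (x i) (x j)`.  So `Bd K' (C_y D' √N) f`, `coord_bd`: `Bd K' (C_c D' (1 + C_y D' √N)) (x a)`, and
`PA.bd_down` to `K`, `Bd.mono`.
-/

namespace Pool.Agent.LGO.CP

open MvPolynomial UpperHalfPlane Pool.Agent.Hhelper14.ZP Pool.Agent.Hhelper14.ZPL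
  Pool.Agent.LGO Pool.Agent.LGO.PA

theorem cp_place {n : ℕ} {V : Set (Fin n → ℂ)} (hV : Pool.Agent.Hhelper14.ZPL.IsIrredClosed V)
    (hVk : KClosed V) (hdim : Pool.Agent.Hhelper14.ZPL.dim V = 1) {i j : Fin n}
    (hi : ∀ c : ℂ, ∃ x ∈ V, x i ≠ c) (hj : ∀ c : ℂ, ∃ x ∈ V, x j ≠ c) (a : Fin n) :
    (∃ C : ℕ, ∀ x ∈ V, ∀ s : ℂ ≃+* ℂ, ‖s (x i)‖ ≤ C ∨ ‖s (x j)‖ ≤ C) ∨
    ∃ (L : Type) (_ : Field L) (_ : Algebra Qb L) (ψ : Fin 3 → L) (O : ValuationSubring L)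
      (Φ : MvPolynomial (Fin 3) Qb), Dep Qb L ∧
      (∀ G : MvPolynomial (Fin 3) Qb, aeval ψ G = 0 ↔
        ∀ x ∈ V, (aeval (x ∘ ![i, j, a]) G : ℂ) = 0) ∧
      Over Qb O ∧ ψ 0 ∉ O ∧ ψ 1 ∉ O ∧ aeval ψ Φ ∉ O ∧
      (∀ O' : ValuationSubring L, Over Qb O' → aeval ψ Φ ∉ O' → O' = O) ∧
      ∀ c : ℂ, ∃ x ∈ V, (aeval (x ∘ ![i, j, a]) Φ : ℂ) ≠ c := by
  obtain ⟨L, hL, hA, ψ, hgen, hdep, hz, hfin⟩ := exists_funQ hV hVk hdim ![i, j, a]
  have htr : ∀ b : Fin 3, (∀ c : ℂ, ∃ x ∈ V, x (![i, j, a] b) ≠ c) →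
      Transcendental Qb (ψ b) := by
    intro b h halg
    obtain ⟨c, hc⟩ := const_of_isAlgebraic halg
    have h1 : aeval ψ (X b - MvPolynomial.C c : MvPolynomial (Fin 3) Qb) = 0 := by
      rw [map_sub, aeval_X, aeval_C, hc, sub_self]
    obtain ⟨x, hx, hne⟩ := h (c : ℂ)
    have h3 := (hz _).mp h1 x hx
    rw [map_sub, aeval_X, aeval_C, sub_eq_zero] at h3
    exact hne h3
  have ht0 : Transcendental Qb (ψ 0) := htr 0 hi
  have ht1 : Transcendental Qb (ψ 1) := htr 1 hj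
  have hψ0 : ψ 0 ≠ 0 := by
    intro h
    rw [h] at ht0
    exact ht0 isAlgebraic_zero
  have hψ1 : ψ 1 ≠ 0 := by
    intro h
    rw [h] at ht1
    exact ht1 isAlgebraic_zero
  obtain ⟨r, O, Φ, hO, huniq⟩ := F.cu_places hdep ψ hgen ht0
  obtain rfl | hr := Nat.eq_zero_or_pos r
  · left
    obtain ⟨C', M, hC', hM, hcov⟩ := F.cu_cov ψ hψ0 hψ1 Φ (by
      intro O' hO' g0 g1
      obtain ⟨t, -⟩ := huniq O' hO' g0 g1
      exact t.elim0)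
    refine ⟨⌈C'⌉₊, fun x hx s => ?_⟩
    by_contra hcon
    push Not at hcon
    obtain ⟨t, -⟩ := hcov s (x ∘ ![i, j, a]) (fun G hG => (hz G).mp hG x hx)
      ((Nat.le_ceil C').trans hcon.1.le) ((Nat.le_ceil C').trans hcon.2.le)
    exact t.elim0
  · right
    let t : Fin r := ⟨0, hr⟩
    refine ⟨L, hL, hA, ψ, O t, Φ t, hdep, hz, (hO t).1, (hO t).2.1, (hO t).2.2.1,
      (hO t).2.2.2.1, (hO t).2.2.2.2.2, ?_⟩
    intro c
    by_contra hcon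
    push Not at hcon
    obtain ⟨x₀, hx₀, -⟩ := hi 0
    have h1 : (1 : MvPolynomial (Fin n) Qb) ∉
        (vanishingIdeal Qb V : Ideal (MvPolynomial (Fin n) Qb)) := by
      intro h2
      have h3 := (mem_vanishingIdeal_iff.mp h2) x₀ hx₀
      rw [map_one] at h3
      exact one_ne_zero h3
    obtain ⟨z, hzV, -⟩ := exists_Qb_point hVk h1
    have h4 : c = ((aeval (z ∘ ![i, j, a]) (Φ t) : Qb) : ℂ) := by
      rw [← hcon _ hzV, ← aeval_coe]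
      rfl
    have h5 : aeval ψ (Φ t - MvPolynomial.C (aeval (z ∘ ![i, j, a]) (Φ t) : Qb) :
        MvPolynomial (Fin 3) Qb) = 0 := by
      rw [hz]
      intro x hx
      rw [map_sub, hcon x hx, aeval_C, h4]
      exact sub_self _
    rw [map_sub, aeval_C, sub_eq_zero] at h5
    apply (hO t).2.2.2.2.1
    rw [h5]
    exact isAlgebraic_algebraMap _

theorem cp_main {n : ℕ} {V : Set (Fin n → ℂ)} (hV : Pool.Agent.Hhelper14.ZPL.IsIrredClosed V)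
    (hVk : KClosed V) (hdim : Pool.Agent.Hhelper14.ZPL.dim V = 1) {i j : Fin n} (hij : i ≠ j)
    (hi : ∀ c : ℂ, ∃ x ∈ V, x i ≠ c) (hj : ∀ c : ℂ, ∃ x ∈ V, x j ≠ c)
    (hmod : ∀ g : GL (Fin 2) ℚ, 0 < g.det.val →
      ∃ x ∈ V, ¬ ∃ τ : ℍ, x i = jInv τ ∧ x j = jInv (gact g τ)) :
    (∃ C : ℕ, ∀ x ∈ V, ∀ s : ℂ ≃+* ℂ, ‖s (x i)‖ ≤ C ∨ ‖s (x j)‖ ≤ C) ∨
    ∀ a : Fin n, ∃ (C : ℕ) (E : Set (Fin n → ℂ)), 1 ≤ C ∧ E.Finite ∧ ∀ x ∈ V, x ∉ E →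
      ∀ (K : IntermediateField ℚ ℂ) [FiniteDimensional ℚ K], x i ∈ K → x j ∈ K → x a ∈ K →
        (∃ N, 0 < N ∧ IsogDeg N (x i) (x j)) →
        Bd K (C * (Module.finrank ℚ K : ℝ) ^ 2 * Real.sqrt (mdeg (x i) (x j))) (x a) := by
  by_cases hcon : ∃ C : ℕ, ∀ x ∈ V, ∀ s : ℂ ≃+* ℂ, ‖s (x i)‖ ≤ C ∨ ‖s (x j)‖ ≤ C
  · exact Or.inl hcon
  right
  intro a
  obtain ⟨L, hL, hA, ψ, O, Φ, hdep, hz, hO, h0, h1, hF, huniq, hnc⟩ :=
    (cp_place hV hVk hdim hi hj a).resolve_left hcon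
  obtain ⟨k, l, μ, M, α, hk, hl, hkl, hμ, hM, hα0, hloc⟩ := cp_loc hdep ψ hO h0 h1 hF huniq
  have hαalg : IsAlgebraic ℚ (α : ℂ) := mem_algebraicClosure_iff.1 α.2
  have hα0' : (α : ℂ) ≠ 0 := by
    intro h
    exact hα0 (Subtype.ext h)
  obtain ⟨M', Cq, hM', hMM', hCq, hq⟩ := loc_q hk hl hkl hμ hM hαalg hα0'
  obtain ⟨Ca, Ea, hCa, hEa, harch⟩ := arch_y hV hVk hdim hij hi hj hmod a hdep ψ
    (fun G hG => (hz G).mp hG) hO h0 h1 hF huniq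
  obtain ⟨Cy, hCy, hy⟩ := y_bd hk hl hμ hM' hαalg hα0' (max Cq Ca) (le_max_of_le_left hCq)
  obtain ⟨K1, hK1, hval⟩ := val_mem Φ
  obtain ⟨K2, Cc, Ec, hK2, hCc, hEc, hcoord⟩ := coord_bd hV hVk hdim ![i, j, a] hnc 2
  have hKα : FiniteDimensional ℚ (IntermediateField.adjoin ℚ {(α : ℂ)}) :=
    IntermediateField.adjoin.finiteDimensional hαalg.isIntegral
  let K₃ : IntermediateField ℚ ℂ := K1 ⊔ K2 ⊔ IntermediateField.adjoin ℚ {(α : ℂ)}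
  have hK₃ : FiniteDimensional ℚ K₃ := by
    have : FiniteDimensional ℚ (K1 ⊔ K2 : IntermediateField ℚ ℂ) :=
      IntermediateField.finiteDimensional_sup K1 K2
    exact IntermediateField.finiteDimensional_sup (K1 ⊔ K2) _
  have hK13 : K1 ≤ K₃ := le_sup_left.trans le_sup_left
  have hK23 : K2 ≤ K₃ := le_sup_right.trans le_sup_left
  have hα3 : (α : ℂ) ∈ K₃ :=
    (le_sup_right : IntermediateField.adjoin ℚ {(α : ℂ)} ≤ K₃)
      (IntermediateField.mem_adjoin_simple_self ℚ _)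
  have hfinI := finite_isogDeg_le hV hdim hij hmod ⌈Cq⌉₊
  set m₃ : ℕ := Module.finrank ℚ K₃ with hm₃
  refine ⟨⌈Cc * m₃ * (1 + Cy * m₃)⌉₊ + 1, Ea ∪ Ec ∪
    {x ∈ V | ∃ m : ℕ, 0 < m ∧ m ≤ ⌈Cq⌉₊ ∧ IsogDeg m (x i) (x j)}, by omega,
    (hEa.union hEc).union hfinI, ?_⟩
  intro x hxV hxE K hKfin hxi hxj hxa hN
  have hxEa : x ∉ Ea := fun h => hxE (Or.inl (Or.inl h))
  have hxEc : x ∉ Ec := fun h => hxE (Or.inl (Or.inr h))
  have hxI : x ∉ {x ∈ V | ∃ m : ℕ, 0 < m ∧ m ≤ ⌈Cq⌉₊ ∧ IsogDeg m (x i) (x j)} :=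
    fun h => hxE (Or.inr h)
  obtain ⟨hN0, hNi⟩ := mdeg_spec hN
  have hbig : Cq < mdeg (x i) (x j) := by
    by_contra hle
    push Not at hle
    apply hxI
    refine ⟨hxV, mdeg (x i) (x j), hN0, ?_, hNi⟩
    have h2 : ((mdeg (x i) (x j) : ℕ) : ℝ) ≤ (⌈Cq⌉₊ : ℝ) := hle.trans (Nat.le_ceil Cq)
    exact_mod_cast h2
  have hyv : ∀ G : MvPolynomial (Fin 3) Qb, aeval ψ G = 0 →
      (aeval (x ∘ ![i, j, a]) G : ℂ) = 0 := fun G hG => (hz G).mp hG x hxV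
  let K' : IntermediateField ℚ ℂ := K ⊔ K₃
  have hKK' : K ≤ K' := le_sup_left
  have hK₃' : K₃ ≤ K' := le_sup_right
  have hK'fin : FiniteDimensional ℚ K' := IntermediateField.finiteDimensional_sup K K₃
  have hrank : Module.finrank ℚ K' ≤ Module.finrank ℚ K * m₃ :=
    IntermediateField.finrank_sup_le K K₃
  have hfK' : (aeval (x ∘ ![i, j, a]) Φ : ℂ) ∈ K' := by
    refine hval K' _ (hK13.trans hK₃') fun b => ?_
    fin_cases b
    · exact hKK' hxi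
    · exact hKK' hxj
    · exact hKK' hxa
  have hNN : (1 : ℝ) ≤ (mdeg (x i) (x j) : ℝ) := by exact_mod_cast hN0
  have hsq : 1 ≤ Real.sqrt (mdeg (x i) (x j)) := by
    rw [Real.one_le_sqrt]
    exact hNN
  have hBf : Bd K' (Cy * Module.finrank ℚ K' * Real.sqrt (mdeg (x i) (x j)))
      (aeval (x ∘ ![i, j, a]) Φ : ℂ) := by
    refine hy K' (mdeg (x i) (x j)) _ hN0 (hK₃' hα3) hfK' ?_ ?_
    · intro s
      refine (harch x hxV hxEa hN s).trans (Real.exp_le_exp.mpr ?_)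
      exact mul_le_mul_of_nonneg_right (le_max_right _ _) (Real.sqrt_nonneg _)
    · intro p hp φ h
      have hlt : 1 < ‖φ ((M : ℂ) * (aeval (x ∘ ![i, j, a]) Φ : ℂ))‖ := by
        obtain ⟨c, rfl⟩ := hMM'
        refine h.trans_le ?_
        rw [Nat.cast_mul, mul_comm (M : ℂ) (c : ℂ), mul_assoc, map_mul, norm_mul, map_natCast]
        refine mul_le_of_le_one_left (norm_nonneg _) ?_
        exact IsUltrametricDist.norm_natCast_le_one ℂ_[p] c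
      have hNr := hloc p φ (x ∘ ![i, j, a]) hyv hlt
      rcases hq p φ (x i) (x j) _ hN hbig hNr h with h' | ⟨h2, h3⟩
      · exact Or.inl h'
      · right
        refine ⟨h2, h3.trans (Real.exp_le_exp.mpr ?_)⟩
        exact mul_le_mul_of_nonneg_right (le_max_left _ _) (Real.sqrt_nonneg _)
  have hB0 : 0 ≤ Cy * Module.finrank ℚ K' * Real.sqrt (mdeg (x i) (x j)) := by
    have : 0 ≤ Cy := zero_le_one.trans hCy
    positivity
  have hca := hcoord x hxV hxEc K' _ (hK23.trans hK₃') hB0 (hKK' hxa) hBf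
  have hca' : Bd K' (Cc * Module.finrank ℚ K' *
      (1 + Cy * Module.finrank ℚ K' * Real.sqrt (mdeg (x i) (x j)))) (x a) := hca
  refine (bd_down hca' hxa).mono ?_
  have hD1 : (1 : ℝ) ≤ Module.finrank ℚ K := by
    exact_mod_cast (Module.finrank_pos : 0 < Module.finrank ℚ K)
  have hD' : (Module.finrank ℚ K' : ℝ) ≤ (Module.finrank ℚ K : ℝ) * m₃ := by
    exact_mod_cast hrank
  have hm0 : (0 : ℝ) ≤ m₃ := Nat.cast_nonneg _
  have hCc0 : 0 ≤ Cc := zero_le_one.trans hCc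
  have hCy0 : 0 ≤ Cy := zero_le_one.trans hCy
  set D : ℝ := (Module.finrank ℚ K : ℝ) with hDdef
  set D' : ℝ := (Module.finrank ℚ K' : ℝ) with hD'def
  set S : ℝ := Real.sqrt (mdeg (x i) (x j)) with hSdef
  have hD'0 : 0 ≤ D' := Nat.cast_nonneg _
  have hS0 : 0 ≤ S := zero_le_one.trans hsq
  have hD0 : 0 ≤ D := zero_le_one.trans hD1
  have hDS : 1 ≤ D * S := by nlinarith
  calc Cc * D' * (1 + Cy * D' * S)
      ≤ Cc * (D * m₃) * (D * S + Cy * (D * m₃) * S) := by gcongr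
    _ = (Cc * m₃ * (1 + Cy * m₃)) * D ^ 2 * S := by ring
    _ ≤ ((⌈Cc * m₃ * (1 + Cy * m₃)⌉₊ + 1 : ℕ) : ℝ) * D ^ 2 * S := by
        gcongr
        push_cast
        exact (Nat.le_ceil _).trans (by linarith)

end Pool.Agent.LGO.CP
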